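import Mathlib

/-!
Brouwer's fixed point theorem for the cube, through Kuhn simplices and determinants mod 2.
-/

namespace Pool.Agent.Brouwer

open Finset

/-- Vertex `j` of the Kuhn simplex with base `x` and time function `τ`. -/
def vert {n : ℕ} (x : Fin n → ℕ) (τ : Equiv.Perm (Fin n)) (j : ℕ) : Fin n → ℕ :=
  fun c => x c + if n ≤ j + (τ c : ℕ) then 1 else 0

/-- Full label matrix. -/
def fmat {n : ℕ} (L : (Fin n → ℕ) → Fin (n + 1)) (x : Fin n → ℕ) (τ : Equiv.Perm (Fin n)) :
    Matrix (Fin (n + 1)) (Fin (n + 1)) (ZMod 2) :=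
  fun l j => if L (vert x τ j) = l then 1 else 0

/-- Label matrix of a facet. -/
def dmat {n : ℕ} (L : (Fin n → ℕ) → Fin (n + 1)) (x : Fin n → ℕ) (τ : Equiv.Perm (Fin n))
    (j : Fin (n + 1)) : Matrix (Fin n) (Fin n) (ZMod 2) :=
  fun l i => if L (vert x τ ((j.succAbove i : Fin (n + 1)) : ℕ)) = l.succ then 1 else 0

theorem neg_one_pow_zmod2 (k : ℕ) : (-1 : ZMod 2) ^ k = 1 := by
  have h : (-1 : ZMod 2) = 1 := by decide
  rw [h, one_pow]

theorem add_self_zmod2 (a : ZMod 2) : a + a = 0 := by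
  revert a; decide

theorem det_fmat {n : ℕ} (L : (Fin n → ℕ) → Fin (n + 1)) (x : Fin n → ℕ)
    (τ : Equiv.Perm (Fin n)) : (fmat L x τ).det = ∑ j, (dmat L x τ j).det := by
  have h1 := Matrix.det_updateRow_sum (fmat L x τ) 0 (fun _ => 1)
  simp only [one_smul] at h1
  rw [← h1, Matrix.det_succ_row_zero]
  refine Finset.sum_congr rfl fun j _ => ?_
  rw [neg_one_pow_zmod2, one_mul]
  have h2 : ((fmat L x τ).updateRow 0 (∑ k, fmat L x τ k)) 0 j = 1 := by
    rw [Matrix.updateRow_self]
    have h4 : (∑ k, fmat L x τ k : Fin (n + 1) → ZMod 2) j = ∑ k, fmat L x τ k j := by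
      exact Finset.sum_apply j Finset.univ (fun k => (fmat L x τ k : Fin (n + 1) → ZMod 2))
    rw [h4]
    simp only [fmat]
    rw [Finset.sum_ite_eq]
    simp
  have h3 : ((fmat L x τ).updateRow 0 (∑ k, fmat L x τ k)).submatrix Fin.succ j.succAbove
      = dmat L x τ j := by
    ext l i
    rw [Matrix.submatrix_apply, Matrix.updateRow_ne (Fin.succ_ne_zero l)]
    rfl
  rw [h2, h3, one_mul]

theorem dmat_congr {n : ℕ} (L : (Fin n → ℕ) → Fin (n + 1)) (x x' : Fin n → ℕ)
    (τ τ' : Equiv.Perm (Fin n)) (j j' : Fin (n + 1))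
    (h : ∀ i : Fin n, vert x τ ((j.succAbove i : Fin (n + 1)) : ℕ)
      = vert x' τ' ((j'.succAbove i : Fin (n + 1)) : ℕ)) :
    dmat L x τ j = dmat L x' τ' j' := by
  ext l i
  unfold dmat
  rw [h i]

/-- Interior facets cancel. -/
theorem sum_mid {n : ℕ} (L : (Fin n → ℕ) → Fin (n + 1)) (x : Fin n → ℕ) (j : Fin (n + 1))
    (h0 : j ≠ 0) (hn : j ≠ Fin.last n) :
    ∑ τ : Equiv.Perm (Fin n), (dmat L x τ j).det = 0 := by
  have hj0 : 0 < (j : ℕ) := by
    rcases Nat.eq_zero_or_pos (j : ℕ) with h | h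
    · exact absurd (Fin.ext h) h0
    · exact h
  have hjn : (j : ℕ) < n := by
    have h1 := j.is_lt
    have h2 : (j : ℕ) ≠ n := fun h => hn (Fin.ext h)
    omega
  let p : Fin n := ⟨n - j, by omega⟩
  let q : Fin n := ⟨n - j - 1, by omega⟩
  have hpq : p ≠ q := by
    intro h
    have := congrArg Fin.val h
    simp only [p, q] at this
    omega
  refine Finset.sum_involution (fun τ _ => Equiv.swap p q * τ) ?_ ?_ ?_ ?_
  · intro τ _
    have h : dmat L x (Equiv.swap p q * τ) j = dmat L x τ j := by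
      refine dmat_congr L _ _ _ _ _ _ fun i => ?_
      have hne : ((j.succAbove i : Fin (n + 1)) : ℕ) ≠ j := fun h =>
        Fin.succAbove_ne j i (Fin.ext h)
      unfold vert
      funext c
      congr 1
      have hiff : n ≤ ((j.succAbove i : Fin (n + 1)) : ℕ) + ((Equiv.swap p q * τ) c : ℕ) ↔
          n ≤ ((j.succAbove i : Fin (n + 1)) : ℕ) + (τ c : ℕ) := by
        rw [Equiv.Perm.mul_apply]
        by_cases h1 : τ c = p
        · rw [h1, Equiv.swap_apply_left]
          simp only [p, q]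
          omega
        · by_cases h2 : τ c = q
          · rw [h2, Equiv.swap_apply_right]
            simp only [p, q]
            omega
          · rw [Equiv.swap_apply_of_ne_of_ne h1 h2]
      simp only [hiff]
    rw [h]
    exact add_self_zmod2 _
  · intro τ _ _ h
    have h1 : Equiv.swap p q = 1 := by
      have := congrArg (fun s => s * τ⁻¹) h
      simpa using this
    exact hpq (Equiv.swap_eq_one_iff.mp h1)
  · intro τ _
    exact Finset.mem_univ _
  · intro τ _
    rw [← mul_assoc, Equiv.swap_mul_self, one_mul]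

theorem vert_rot {m : ℕ} (x : Fin (m + 1) → ℕ) (τ : Equiv.Perm (Fin (m + 1))) (i : Fin (m + 1)) :
    vert x τ ((i : ℕ) + 1) =
      vert (fun c => x c + if (finRotate (m + 1) * τ) c = 0 then 1 else 0)
        (finRotate (m + 1) * τ) i := by
  funext c
  unfold vert
  simp only [Equiv.Perm.mul_apply, finRotate_apply]
  by_cases h : τ c = Fin.last m
  · rw [h, Fin.last_add_one]
    have hi := i.is_lt
    have hl : ((Fin.last m : Fin (m + 1)) : ℕ) = m := rfl
    have hz : ((0 : Fin (m + 1)) : ℕ) = 0 := rfl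
    rw [if_pos (by omega), if_pos rfl, if_neg (by omega)]
  · have h1 : ((τ c + 1 : Fin (m + 1)) : ℕ) = (τ c : ℕ) + 1 := by
      rw [Fin.val_add_one]
      simp [h]
    have h2 : (τ c + 1 : Fin (m + 1)) ≠ 0 := by
      intro h3
      have := congrArg Fin.val h3
      rw [h1] at this
      simp at this
    rw [if_neg h2, h1]
    have h3 : (m + 1 ≤ (i : ℕ) + 1 + (τ c : ℕ)) ↔ (m + 1 ≤ (i : ℕ) + ((τ c : ℕ) + 1)) := by
      omega
    simp only [h3, add_zero]

theorem sum_first {m N : ℕ} (L : (Fin (m + 1) → ℕ) → Fin (m + 1 + 1)) :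
    ∑ τ : Equiv.Perm (Fin (m + 1)), ∑ x : Fin (m + 1) → Fin N,
      (dmat L (fun c => (x c : ℕ)) τ 0).det =
    ∑ τ : Equiv.Perm (Fin (m + 1)), ∑ x : Fin (m + 1) → Fin N,
      (dmat L (fun c => (x c : ℕ) + if τ c = 0 then 1 else 0) τ (Fin.last (m + 1))).det := by
  rw [← Equiv.sum_comp (Equiv.mulLeft (finRotate (m + 1)))
    (fun τ : Equiv.Perm (Fin (m + 1)) => ∑ x : Fin (m + 1) → Fin N,
      (dmat L (fun c => (x c : ℕ) + if τ c = 0 then 1 else 0) τ (Fin.last (m + 1))).det)]
  refine Finset.sum_congr rfl fun τ _ => Finset.sum_congr rfl fun x _ => ?_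
  congr 1
  refine dmat_congr L _ _ _ _ _ _ fun i => ?_
  rw [Fin.succAbove_zero, Fin.succAbove_last, Fin.val_succ, Fin.val_castSucc]
  exact vert_rot _ _ _

theorem telescope (G : ℕ → ZMod 2) (N : ℕ) :
    ∑ t ∈ Finset.range N, (G (t + 1) + G t) = G N + G 0 := by
  induction N with
  | zero => simp [add_self_zmod2]
  | succ N ih =>
    rw [Finset.sum_range_succ, ih]
    have := add_self_zmod2 (G N)
    linear_combination this

theorem insertNth_coe {m N : ℕ} (a : Fin (m + 1)) (t : Fin N) (y : Fin m → Fin N) :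
    (fun c => ((a.insertNth t y : Fin (m + 1) → Fin N) c : ℕ)) =
      (a.insertNth (t : ℕ) (fun c => (y c : ℕ)) : Fin (m + 1) → ℕ) := by
  funext c
  refine Fin.succAboveCases a ?_ (fun i => ?_) c
  · rw [Fin.insertNth_apply_same, Fin.insertNth_apply_same]
  · rw [Fin.insertNth_apply_succAbove, Fin.insertNth_apply_succAbove]

theorem insertNth_coe_add {m N : ℕ} (τ : Equiv.Perm (Fin (m + 1))) (t : Fin N)
    (y : Fin m → Fin N) :
    (fun c => (((τ.symm 0).insertNth t y : Fin (m + 1) → Fin N) c : ℕ)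
      + if τ c = 0 then 1 else 0) =
      ((τ.symm 0).insertNth ((t : ℕ) + 1) (fun c => (y c : ℕ)) : Fin (m + 1) → ℕ) := by
  funext c
  refine Fin.succAboveCases (τ.symm 0) ?_ (fun i => ?_) c
  · rw [Fin.insertNth_apply_same, Fin.insertNth_apply_same, Equiv.apply_symm_apply, if_pos rfl]
  · rw [Fin.insertNth_apply_succAbove, Fin.insertNth_apply_succAbove, if_neg, add_zero]
    intro h
    have : τ.symm 0 = (τ.symm 0).succAbove i := by
      rw [Equiv.symm_apply_eq]
      exact h.symm
    exact Fin.succAbove_ne _ _ this.symm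

/-- Boundary terms. -/
theorem sum_boundary {m N : ℕ} (L : (Fin (m + 1) → ℕ) → Fin (m + 1 + 1))
    (τ : Equiv.Perm (Fin (m + 1))) :
    ∑ x : Fin (m + 1) → Fin N,
      (dmat L (fun c => (x c : ℕ) + if τ c = 0 then 1 else 0) τ (Fin.last (m + 1))).det +
    ∑ x : Fin (m + 1) → Fin N, (dmat L (fun c => (x c : ℕ)) τ (Fin.last (m + 1))).det =
    ∑ y : Fin m → Fin N,
      ((dmat L ((τ.symm 0).insertNth N (fun c => (y c : ℕ)) : Fin (m + 1) → ℕ) τ
          (Fin.last (m + 1))).det +
       (dmat L ((τ.symm 0).insertNth 0 (fun c => (y c : ℕ)) : Fin (m + 1) → ℕ) τ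
          (Fin.last (m + 1))).det) := by
  rw [← Finset.sum_add_distrib,
    ← Equiv.sum_comp (Fin.insertNthEquiv (fun _ => Fin N) (τ.symm 0)), Fintype.sum_prod_type,
    Finset.sum_comm]
  refine Finset.sum_congr rfl fun y _ => ?_
  simp only [Fin.insertNthEquiv_apply]
  simp only [insertNth_coe_add, insertNth_coe]
  rw [← telescope (fun t => (dmat L ((τ.symm 0).insertNth t (fun c => (y c : ℕ)) :
    Fin (m + 1) → ℕ) τ (Fin.last (m + 1))).det) N]
  rw [Finset.sum_range]

theorem vert_last {m : ℕ} (τ : Equiv.Perm (Fin (m + 1))) (t : ℕ) (y : Fin m → ℕ)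
    (i : Fin (m + 1)) :
    vert ((τ.symm 0).insertNth t y : Fin (m + 1) → ℕ) τ
      (((Fin.last (m + 1)).succAbove i : Fin (m + 1 + 1)) : ℕ) (τ.symm 0) = t := by
  rw [Fin.succAbove_last, Fin.val_castSucc]
  unfold vert
  rw [Fin.insertNth_apply_same, Equiv.apply_symm_apply]
  have hi := i.is_lt
  have hz : ((0 : Fin (m + 1)) : ℕ) = 0 := rfl
  rw [if_neg (by omega), add_zero]

theorem low_face {m : ℕ} (L : (Fin (m + 1) → ℕ) → Fin (m + 1 + 1))
    (P1 : ∀ x i, x i = 0 → L x ≠ i.succ) (τ : Equiv.Perm (Fin (m + 1))) (y : Fin m → ℕ) :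
    (dmat L ((τ.symm 0).insertNth 0 y : Fin (m + 1) → ℕ) τ (Fin.last (m + 1))).det = 0 := by
  refine Matrix.det_eq_zero_of_row_eq_zero (τ.symm 0) fun i => ?_
  unfold dmat
  rw [if_neg]
  exact P1 _ _ (vert_last τ 0 y i)

theorem high_face {m N : ℕ} (L : (Fin (m + 1) → ℕ) → Fin (m + 1 + 1))
    (P2 : ∀ x i, x i = N → i.succ ≤ L x) (τ : Equiv.Perm (Fin (m + 1))) (hτ : τ 0 ≠ 0)
    (y : Fin m → ℕ) :
    (dmat L ((τ.symm 0).insertNth N y : Fin (m + 1) → ℕ) τ (Fin.last (m + 1))).det = 0 := by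
  refine Matrix.det_eq_zero_of_row_eq_zero 0 fun i => ?_
  unfold dmat
  rw [if_neg]
  intro h
  have h1 := P2 _ _ (vert_last τ N y i)
  rw [h, Fin.succ_le_succ_iff] at h1
  have h2 : τ.symm 0 = 0 := le_antisymm h1 (Fin.zero_le _)
  apply hτ
  rw [← h2, Equiv.apply_symm_apply, h2]

theorem high_face_zero {m N : ℕ} (L : (Fin (m + 1) → ℕ) → Fin (m + 1 + 1))
    (L' : (Fin m → ℕ) → Fin (m + 1)) (hL : ∀ z, L (Fin.cons N z) = (L' z).succ)
    (e : Equiv.Perm (Fin m)) (y : Fin m → ℕ) :
    dmat L (((Equiv.Perm.decomposeFin.symm (0, e)).symm 0).insertNth N y : Fin (m + 1) → ℕ)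
      (Equiv.Perm.decomposeFin.symm (0, e)) (Fin.last (m + 1)) = fmat L' y e := by
  have h0 : (Equiv.Perm.decomposeFin.symm (0, e)).symm 0 = 0 := by
    rw [Equiv.symm_apply_eq, Equiv.Perm.decomposeFin_symm_apply_zero]
  rw [h0, Fin.insertNth_zero']
  ext l i
  unfold dmat fmat
  rw [Fin.succAbove_last, Fin.val_castSucc]
  have hv : vert (Fin.cons N y : Fin (m + 1) → ℕ) (Equiv.Perm.decomposeFin.symm (0, e)) i =
      Fin.cons N (vert y e i) := by
    funext c
    refine Fin.cases ?_ (fun c' => ?_) c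
    · unfold vert
      rw [Equiv.Perm.decomposeFin_symm_apply_zero, Fin.cons_zero, Fin.cons_zero]
      have hi := i.is_lt
      have hz : ((0 : Fin (m + 1)) : ℕ) = 0 := rfl
      rw [if_neg (by omega), add_zero]
    · rw [Fin.cons_succ]
      unfold vert
      rw [Equiv.Perm.decomposeFin_symm_apply_succ, Fin.cons_succ, Equiv.swap_self,
        Equiv.refl_apply, Fin.val_succ]
      have h3 : (m + 1 ≤ (i : ℕ) + ((e c' : ℕ) + 1)) ↔ (m ≤ (i : ℕ) + (e c' : ℕ)) := by omega
      simp only [h3]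
  rw [hv, hL]
  simp only [Fin.succ_inj]

/-- Sperner's lemma in determinant form. -/
theorem sperner (N : ℕ) : ∀ (n : ℕ) (L : (Fin n → ℕ) → Fin (n + 1)),
    (∀ x i, x i = 0 → L x ≠ i.succ) → (∀ x i, x i = N → i.succ ≤ L x) →
    ∑ τ : Equiv.Perm (Fin n), ∑ x : Fin n → Fin N, (fmat L (fun c => (x c : ℕ)) τ).det = 1 := by
  intro n
  induction n with
  | zero =>
    intro L _ _
    have h1 : ∀ (τ : Equiv.Perm (Fin 0)) (x : Fin 0 → Fin N),
        (fmat L (fun c => (x c : ℕ)) τ).det = 1 := by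
      intro τ x
      have h2 : ∀ M : Matrix (Fin 1) (Fin 1) (ZMod 2), M.det = M 0 0 := fun M =>
        Matrix.det_fin_one M
      rw [show (fmat L (fun c => (x c : ℕ)) τ).det = fmat L (fun c => (x c : ℕ)) τ 0 0 from h2 _]
      unfold fmat
      have h3 : ∀ a b : Fin 1, a = b := fun a b => Subsingleton.elim a b
      rw [if_pos (h3 _ _)]
    simp only [h1]
    simp
  | succ m ih =>
    intro L P1 P2
    have hne : ∀ z : Fin m → ℕ, L (Fin.cons N z) ≠ 0 := by
      intro z h
      have := P2 (Fin.cons N z) 0 (by rw [Fin.cons_zero])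
      rw [h] at this
      exact absurd this (by simp)
    have hih := ih (fun z => (L (Fin.cons N z)).pred (hne z)) ?_ ?_
    · have hsplit : ∀ τ : Equiv.Perm (Fin (m + 1)), ∀ x : Fin (m + 1) → Fin N,
          (fmat L (fun c => (x c : ℕ)) τ).det =
            ∑ j, (dmat L (fun c => (x c : ℕ)) τ j).det := fun τ x => det_fmat _ _ _
      simp only [hsplit]
      have hcomm : ∑ τ : Equiv.Perm (Fin (m + 1)), ∑ x : Fin (m + 1) → Fin N,
          ∑ j, (dmat L (fun c => (x c : ℕ)) τ j).det =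
          ∑ j, ∑ x : Fin (m + 1) → Fin N, ∑ τ : Equiv.Perm (Fin (m + 1)),
            (dmat L (fun c => (x c : ℕ)) τ j).det := by
        rw [Finset.sum_comm]
        rw [Finset.sum_congr rfl fun x _ => Finset.sum_comm]
        rw [Finset.sum_comm]
      rw [hcomm, Fin.sum_univ_succ, Fin.sum_univ_castSucc]
      have hmid : ∑ j : Fin m, ∑ x : Fin (m + 1) → Fin N, ∑ τ : Equiv.Perm (Fin (m + 1)),
          (dmat L (fun c => (x c : ℕ)) τ j.castSucc.succ).det = 0 := by
        refine Finset.sum_eq_zero fun j _ => Finset.sum_eq_zero fun x _ => ?_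
        refine sum_mid L _ _ (Fin.succ_ne_zero _) ?_
        intro h
        have := congrArg Fin.val h
        simp at this
        have := j.is_lt
        omega
      rw [hmid, zero_add, Fin.succ_last]
      rw [Finset.sum_comm, sum_first, Finset.sum_comm (s := (Finset.univ : Finset
        (Fin (m + 1) → Fin N))), ← Finset.sum_add_distrib]
      simp only [sum_boundary]
      have hb : ∀ (τ : Equiv.Perm (Fin (m + 1))) (y : Fin m → Fin N),
          (dmat L ((τ.symm 0).insertNth 0 (fun c => (y c : ℕ)) : Fin (m + 1) → ℕ) τ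
            (Fin.last (m + 1))).det = 0 := fun τ y => low_face L P1 τ _
      simp only [hb, add_zero]
      rw [← Equiv.sum_comp Equiv.Perm.decomposeFin.symm, Fintype.sum_prod_type,
        Fin.sum_univ_succ]
      have hz : ∑ p : Fin m, ∑ e : Equiv.Perm (Fin m), ∑ y : Fin m → Fin N,
          (dmat L (((Equiv.Perm.decomposeFin.symm (p.succ, e)).symm 0).insertNth N
            (fun c => (y c : ℕ)) : Fin (m + 1) → ℕ) (Equiv.Perm.decomposeFin.symm (p.succ, e))
            (Fin.last (m + 1))).det = 0 := by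
        refine Finset.sum_eq_zero fun p _ => Finset.sum_eq_zero fun e _ =>
          Finset.sum_eq_zero fun y _ => ?_
        refine high_face L P2 _ ?_ _
        rw [Equiv.Perm.decomposeFin_symm_apply_zero]
        exact Fin.succ_ne_zero p
      rw [hz, add_zero]
      rw [← hih]
      refine Finset.sum_congr rfl fun e _ => Finset.sum_congr rfl fun y _ => ?_
      rw [high_face_zero L (fun z => (L (Fin.cons N z)).pred (hne z))
        (fun z => (Fin.succ_pred _ _).symm)]
    · intro x i hx h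
      refine P1 (Fin.cons N x) i.succ (by rw [Fin.cons_succ, hx]) ?_
      rw [← h, Fin.succ_pred]
    · intro x i hx
      have := P2 (Fin.cons N x) i.succ (by rw [Fin.cons_succ, hx])
      rw [← Fin.succ_le_succ_iff, Fin.succ_pred]
      exact this

/-- The scaled point of the grid. -/
noncomputable def scale {n : ℕ} (N : ℕ) (x : Fin n → ℕ) : Fin n → ℝ := fun i => (x i : ℝ) / N

open Classical in
/-- The labelling used for the fixed point theorem. -/
noncomputable def label {n : ℕ} (f : (Fin n → ℝ) → (Fin n → ℝ)) (N : ℕ) (x : Fin n → ℕ) :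
    Fin (n + 1) :=
  (Finset.univ.filter (fun i : Fin n => 0 < x i ∧ (N ≤ x i ∨ f (scale N x) i ≤ scale N x i))).sup
    Fin.succ

theorem label_succ {n : ℕ} (f : (Fin n → ℝ) → (Fin n → ℝ)) (N : ℕ) (x : Fin n → ℕ) (i : Fin n)
    (h : label f N x = i.succ) :
    0 < x i ∧ (N ≤ x i ∨ f (scale N x) i ≤ scale N x i) := by
  classical
  unfold label at h
  rcases Finset.eq_empty_or_nonempty (Finset.univ.filter
    (fun i : Fin n => 0 < x i ∧ (N ≤ x i ∨ f (scale N x) i ≤ scale N x i))) with h1 | h1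
  · rw [h1, Finset.sup_empty] at h
    exact absurd h.symm (Fin.succ_ne_zero i)
  · obtain ⟨j, hj, hj2⟩ := Finset.exists_mem_eq_sup _ h1 Fin.succ
    rw [hj2] at h
    have h2 := Fin.succ_injective _ h
    rw [h2] at hj
    exact (Finset.mem_filter.mp hj).2

theorem le_label {n : ℕ} (f : (Fin n → ℝ) → (Fin n → ℝ)) (N : ℕ) (x : Fin n → ℕ) (i : Fin n)
    (h : 0 < x i ∧ (N ≤ x i ∨ f (scale N x) i ≤ scale N x i)) :
    i.succ ≤ label f N x := by
  classical
  unfold label
  exact Finset.le_sup (f := Fin.succ) (Finset.mem_filter.mpr ⟨Finset.mem_univ _, h⟩)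

theorem step (n : ℕ) (f : (Fin n → ℝ) → (Fin n → ℝ))
    (hmap : Set.MapsTo f (Set.Icc 0 1) (Set.Icc 0 1)) (N : ℕ) (hN : 0 < N) :
    ∃ p ∈ Set.Icc (0 : Fin n → ℝ) 1, ∃ q : Fin (n + 1) → (Fin n → ℝ),
      (∀ l, q l ∈ Set.Icc (0 : Fin n → ℝ) 1) ∧ (∀ l, dist (q l) p ≤ 1 / N) ∧
      (∀ i : Fin n, f (q i.succ) i ≤ q i.succ i) ∧ (∀ i, q 0 i ≤ f (q 0) i) := by
  have hNR : (0 : ℝ) < N := by exact_mod_cast hN
  have hs := sperner N n (label f N) (fun x i hx h => by
      have := (label_succ f N x i h).1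
      omega) (fun x i hx => le_label f N x i ⟨by omega, Or.inl (by omega)⟩)
  have hex : ∃ τ : Equiv.Perm (Fin n), ∃ x : Fin n → Fin N,
      (fmat (label f N) (fun c => (x c : ℕ)) τ).det ≠ 0 := by
    by_contra hcon
    push Not at hcon
    rw [Finset.sum_eq_zero fun τ _ => Finset.sum_eq_zero fun x _ => hcon τ x] at hs
    exact absurd hs (by decide)
  obtain ⟨τ, x, hdet⟩ := hex
  have hlab : ∀ l : Fin (n + 1), ∃ j : Fin (n + 1),
      label f N (vert (fun c => (x c : ℕ)) τ j) = l := by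
    intro l
    by_contra hcon
    push Not at hcon
    refine hdet (Matrix.det_eq_zero_of_row_eq_zero l fun j => ?_)
    unfold fmat
    rw [if_neg (hcon j)]
  choose j hj using hlab
  have hcube : ∀ l, scale N (vert (fun c => (x c : ℕ)) τ (j l)) ∈ Set.Icc (0 : Fin n → ℝ) 1 := by
    intro l
    constructor
    · intro i
      unfold scale
      positivity
    · intro i
      unfold scale
      rw [Pi.one_apply, div_le_one hNR]
      have h1 : vert (fun c => (x c : ℕ)) τ (j l) i ≤ N := by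
        unfold vert
        have := (x i).is_lt
        beta_reduce
        split_ifs <;> omega
      exact_mod_cast h1
  have hle : ∀ l i, 0 ≤ f (scale N (vert (fun c => (x c : ℕ)) τ (j l))) i ∧
      f (scale N (vert (fun c => (x c : ℕ)) τ (j l))) i ≤ 1 := fun l i =>
    ⟨(hmap (hcube l)).1 i, (hmap (hcube l)).2 i⟩
  refine ⟨scale N (fun c => (x c : ℕ)), ?_,
    fun l => scale N (vert (fun c => (x c : ℕ)) τ (j l)), hcube, ?_, ?_, ?_⟩
  · constructor
    · intro i
      unfold scale
      positivity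
    · intro i
      unfold scale
      rw [Pi.one_apply, div_le_one hNR]
      exact_mod_cast (x i).is_lt.le
  · intro l
    rw [dist_pi_le_iff (by positivity)]
    intro i
    unfold scale
    rw [Real.dist_eq, ← sub_div, abs_div, abs_of_pos hNR]
    refine div_le_div_of_nonneg_right ?_ hNR.le
    unfold vert
    split_ifs
    · push_cast
      rw [add_sub_cancel_left, abs_one]
    · simp
  · intro i
    rcases (label_succ f N _ i (hj i.succ)).2 with h | h
    · refine (hle _ i).2.trans ?_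
      unfold scale
      rw [one_le_div hNR]
      exact_mod_cast h
    · exact h
  · intro i
    by_contra hcon
    push Not at hcon
    have h0 : 0 < vert (fun c => (x c : ℕ)) τ (j 0) i := by
      by_contra h0
      have h1 : vert (fun c => (x c : ℕ)) τ (j 0) i = 0 := by omega
      have h2 := (hle 0 i).1
      have h3 : scale N (vert (fun c => (x c : ℕ)) τ (j 0)) i = 0 := by
        unfold scale
        rw [h1]
        simp
      rw [h3] at hcon
      linarith
    have h4 := le_label f N _ i ⟨h0, Or.inr hcon.le⟩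
    rw [hj 0] at h4
    exact absurd h4 (by simp)

/-- **Brouwer's fixed point theorem** for the cube. -/
theorem brouwer_cube (n : ℕ) (f : (Fin n → ℝ) → (Fin n → ℝ))
    (hf : ContinuousOn f (Set.Icc 0 1)) (hmap : Set.MapsTo f (Set.Icc 0 1) (Set.Icc 0 1)) :
    ∃ x ∈ Set.Icc (0 : Fin n → ℝ) 1, f x = x := by
  have hstep := fun k : ℕ => step n f hmap (k + 1) (Nat.succ_pos k)
  choose p hp q hq hd h1 h2 using hstep
  obtain ⟨a, ha, φ, hφ, hlim⟩ := (isCompact_Icc (a := (0 : Fin n → ℝ)) (b := 1)).tendsto_subseq hp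
  have hq' : ∀ l, Filter.Tendsto (fun k => q (φ k) l) Filter.atTop (nhds a) := by
    intro l
    have h3 : Filter.Tendsto (fun k => dist (q (φ k) l) (p (φ k))) Filter.atTop (nhds 0) := by
      have h4 : Filter.Tendsto (fun k : ℕ => (1 : ℝ) / ((φ k + 1 : ℕ) : ℝ)) Filter.atTop
          (nhds 0) := by
        have h5 := tendsto_one_div_add_atTop_nhds_zero_nat (𝕜 := ℝ)
        have h6 := h5.comp hφ.tendsto_atTop
        refine h6.congr fun k => ?_
        simp only [Function.comp]
        push_cast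
        ring
      exact squeeze_zero (fun k => dist_nonneg) (fun k => hd (φ k) l) h4
    exact (tendsto_iff_of_dist h3).mpr hlim
  have hfq : ∀ l, Filter.Tendsto (fun k => f (q (φ k) l)) Filter.atTop (nhds (f a)) := by
    intro l
    have h3 := hf a ha
    refine h3.tendsto.comp ?_
    exact tendsto_nhdsWithin_iff.mpr ⟨hq' l, Filter.Eventually.of_forall fun k => hq _ l⟩
  refine ⟨a, ha, ?_⟩
  funext i
  refine le_antisymm ?_ ?_
  · have h3 := ((continuous_apply i).tendsto _).comp (hfq i.succ)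
    have h4 := ((continuous_apply i).tendsto _).comp (hq' i.succ)
    exact le_of_tendsto_of_tendsto' h3 h4 fun k => h1 (φ k) i
  · have h3 := ((continuous_apply i).tendsto _).comp (hfq 0)
    have h4 := ((continuous_apply i).tendsto _).comp (hq' 0)
    exact le_of_tendsto_of_tendsto' h4 h3 fun k => h2 (φ k) i

end Pool.Agent.Brouwer
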