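import Pool.Agent.Work.MP_476501_co.Arcs

/-!
# MP_476501_co : the boundary inequality
-/

set_option autoImplicit false

namespace MP_476501_co

open MeasureTheory Set Filter Topology

variable {N : ℕ}

/-- arcs starting at the points `j / N` -/
lemma cov_shift [NeZero N] (l : Fin N → ℝ) (c : Fin N) (hc : l c ≤ 0) (x : ℝ)
    (hx : x ∈ Ico (((c:ℕ):ℝ) / N) ((((c:ℕ):ℝ) + 1) / N)) :
    cov (fun j : Fin N => ((j:ℕ):ℝ) / N) l x ≤ cov (fun j : Fin N => ((j:ℕ):ℝ) / N) l (x - 1 / N) := by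
  have hN : 0 < N := Nat.pos_of_ne_zero (NeZero.ne N)
  have hN' : (0:ℝ) < N := by exact_mod_cast hN
  by_cases h : ∃ j : Fin N, Int.fract (x - ((j:ℕ):ℝ) / N) < l j
  · obtain ⟨j, hj⟩ := h
    have hjc : j ≠ c := by
      intro h
      rw [h] at hj
      have := Int.fract_nonneg (x - ((c:ℕ):ℝ) / N)
      linarith
    have hx1 : ((c:ℕ):ℝ) ≤ N * x := by
      have := hx.1
      rw [div_le_iff₀ hN'] at this
      linarith
    have hx2 : N * x < ((c:ℕ):ℝ) + 1 := by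
      have := hx.2
      rw [lt_div_iff₀ hN'] at this
      linarith
    have hcN : ((c:ℕ):ℝ) + 1 ≤ N := by exact_mod_cast c.2
    have hjN : ((j:ℕ):ℝ) + 1 ≤ N := by exact_mod_cast j.2
    have hc0 : (0:ℝ) ≤ (c:ℕ) := Nat.cast_nonneg _
    have hj0 : (0:ℝ) ≤ (j:ℕ) := Nat.cast_nonneg _
    have hNj : N * (((j:ℕ):ℝ) / N) = (j:ℕ) := by field_simp
    have hN1 : N * (1 / (N:ℝ)) = 1 := by field_simp
    have key : Int.fract (x - 1 / N - ((j:ℕ):ℝ) / N) = Int.fract (x - ((j:ℕ):ℝ) / N) - 1 / N := by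
      rcases lt_or_gt_of_ne (fun h => hjc (Fin.ext h) : (j:ℕ) ≠ (c:ℕ)) with h1 | h1
      · -- j < c
        have h1' : ((j:ℕ):ℝ) + 1 ≤ (c:ℕ) := by exact_mod_cast h1
        have e1 : Int.fract (x - ((j:ℕ):ℝ) / N) = x - ((j:ℕ):ℝ) / N := by
          rw [Int.fract_eq_self]
          constructor
          · have : 0 ≤ N * (x - ((j:ℕ):ℝ) / N) := by rw [mul_sub, hNj]; linarith
            exact nonneg_of_mul_nonneg_right this hN'
          · have : N * (x - ((j:ℕ):ℝ) / N) < N * 1 := by rw [mul_sub, hNj]; linarith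
            exact lt_of_mul_lt_mul_left this hN'.le
        rw [e1]
        have e2 : x - 1 / N - ((j:ℕ):ℝ) / N = x - ((j:ℕ):ℝ) / N - 1 / N := by ring
        rw [e2, Int.fract_eq_self]
        constructor
        · have : 0 ≤ N * (x - ((j:ℕ):ℝ) / N - 1 / N) := by
            rw [mul_sub, mul_sub, hNj, hN1]; linarith
          exact nonneg_of_mul_nonneg_right this hN'
        · have : N * (x - ((j:ℕ):ℝ) / N - 1 / N) < N * 1 := by
            rw [mul_sub, mul_sub, hNj, hN1]; linarith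
          exact lt_of_mul_lt_mul_left this hN'.le
      · -- c < j
        have h1' : ((c:ℕ):ℝ) + 1 ≤ (j:ℕ) := by exact_mod_cast h1
        have e1 : Int.fract (x - ((j:ℕ):ℝ) / N) = x - ((j:ℕ):ℝ) / N + 1 := by
          rw [Int.fract_eq_iff]
          refine ⟨?_, ?_, ⟨-1, by push_cast; ring⟩⟩
          · have : 0 ≤ N * (x - ((j:ℕ):ℝ) / N + 1) := by rw [mul_add, mul_sub, hNj]; linarith
            exact nonneg_of_mul_nonneg_right this hN'
          · have : N * (x - ((j:ℕ):ℝ) / N + 1) < N * 1 := by rw [mul_add, mul_sub, hNj]; linarith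
            exact lt_of_mul_lt_mul_left this hN'.le
        rw [e1]
        rw [Int.fract_eq_iff]
        refine ⟨?_, ?_, ⟨-1, by push_cast; ring⟩⟩
        · have : 0 ≤ N * (x - ((j:ℕ):ℝ) / N + 1 - 1 / N) := by
            rw [mul_sub, mul_add, mul_sub, hNj, hN1]; linarith
          exact nonneg_of_mul_nonneg_right this hN'
        · have : N * (x - ((j:ℕ):ℝ) / N + 1 - 1 / N) < N * 1 := by
            rw [mul_sub, mul_add, mul_sub, hNj, hN1]; linarith
          exact lt_of_mul_lt_mul_left this hN'.le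
    rw [cov_eq_one (l := l) (a := fun j : Fin N => ((j:ℕ):ℝ) / N) (x := x - 1 / N)]
    · exact cov_le_one _ _ _
    · refine ⟨j, ?_⟩
      rw [key]
      have : 0 < 1 / (N:ℝ) := by positivity
      linarith
  · rw [cov_eq_zero (x := x) h]
    exact cov_nonneg _ _ _

lemma X_pred_cast [NeZero N] {ι : Type*} [Fintype ι] (a l : ι → ℝ) (c : Fin N) :
    X N a l (((c - 1 : Fin N) : ℕ) : ℤ) = X N a l (((c:ℕ):ℤ) - 1) := by
  have hN : 0 < N := Nat.pos_of_ne_zero (NeZero.ne N)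
  obtain ⟨m, hm⟩ : ∃ m : ℤ, (((c - 1 : Fin N) : ℕ) : ℤ) = ((c:ℕ):ℤ) - 1 + m * N := by
    have h1 : ((c - 1 : Fin N) : ℕ) = (N - ((1 : Fin N):ℕ) + (c:ℕ)) % N := by
      rw [Fin.val_sub]
    have h2 : ((1 : Fin N) : ℕ) = 1 % N := rfl
    rw [h1, h2]
    have h3 := Int.emod_add_mul_ediv (((N - 1 % N + (c:ℕ) : ℕ)) : ℤ) (N:ℤ)
    have h5 : ((1 % N : ℕ) : ℤ) = 1 - N * ((1:ℤ) / N) := by
      have := Int.emod_add_mul_ediv (1:ℤ) (N:ℤ)
      push_cast
      linarith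
    have h6 : 1 % N ≤ N := (Nat.mod_lt _ hN).le
    refine ⟨1 + (1:ℤ)/N - (((N - 1 % N + (c:ℕ) : ℕ)) : ℤ) / N, ?_⟩
    have h7 : (((N - 1 % N + (c:ℕ) : ℕ)) : ℤ) = N - ((1 % N : ℕ) : ℤ) + (c:ℕ) := by
      push_cast [Nat.cast_sub h6]
      ring
    have h8 : (((N - 1 % N + (c:ℕ)) % N : ℕ) : ℤ) = (((N - 1 % N + (c:ℕ) : ℕ)) : ℤ) % N := by
      push_cast
      rfl
    rw [h8]
    have h9 : (((N - 1 % N + (c:ℕ) : ℕ)) : ℤ) % N = (((N - 1 % N + (c:ℕ) : ℕ)) : ℤ) -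
        N * ((((N - 1 % N + (c:ℕ) : ℕ)) : ℤ) / N) := by linarith
    rw [h9]
    conv_lhs => rw [h7, h5]
    rw [h7, h5]
    ring
  rw [hm, X_add_period hN]

theorem abel [NeZero N] (l : Fin N → ℝ) (F : Fin N → ℝ) (ε : ℝ)
    (hF : ∀ j, 0 ≤ F j) (hact : ∀ j, 0 < l j → F j ≤ ε) (hε : 0 ≤ ε) :
    -(N * ε) ≤ ∑ c : Fin N, X N (fun j : Fin N => ((j:ℕ):ℝ) / N) l ((c:ℕ):ℤ) *
      (F (c + 1) - F c) := by
  have hN : 0 < N := Nat.pos_of_ne_zero (NeZero.ne N)
  set a : Fin N → ℝ := fun j : Fin N => ((j:ℕ):ℝ) / N with ha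
  have h1 : ∑ c : Fin N, X N a l ((c:ℕ):ℤ) * F (c + 1) =
      ∑ c : Fin N, X N a l (((c - 1 : Fin N):ℕ):ℤ) * F c := by
    rw [← Equiv.sum_comp (Equiv.addRight (1 : Fin N))
      (fun c => X N a l (((c - 1 : Fin N):ℕ):ℤ) * F c)]
    apply Finset.sum_congr rfl
    intro c _
    simp only [Equiv.coe_addRight, add_sub_cancel_right]
  have h2 : ∑ c : Fin N, X N a l ((c:ℕ):ℤ) * (F (c + 1) - F c) =
      ∑ c : Fin N, F c * (X N a l (((c:ℕ):ℤ) - 1) - X N a l ((c:ℕ):ℤ)) := by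
    simp only [mul_sub]
    rw [Finset.sum_sub_distrib, Finset.sum_sub_distrib, h1]
    congr 1
    · apply Finset.sum_congr rfl
      intro c _
      rw [X_pred_cast]
      ring
    · apply Finset.sum_congr rfl
      intro c _
      ring
  rw [h2]
  have h3 : -(N * ε) = ∑ _c : Fin N, (-ε) := by simp
  rw [h3]
  apply Finset.sum_le_sum
  intro c _
  by_cases hc : 0 < l c
  · have e1 := hact c hc
    have e2 := X_nonneg hN a l (((c:ℕ):ℤ) - 1)
    have e3 := X_le_one hN a l ((c:ℕ):ℤ)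
    have e4 : -1 ≤ X N a l (((c:ℕ):ℤ) - 1) - X N a l ((c:ℕ):ℤ) := by linarith
    have e5 := hF c
    nlinarith
  · have e1 : X N a l ((c:ℕ):ℤ) ≤ X N a l (((c:ℕ):ℤ) - 1) := by
      apply X_le_pred hN
      intro x hx
      apply cov_shift l c (not_lt.mp hc) x
      simpa using hx
    have := mul_nonneg (hF c) (sub_nonneg.mpr e1)
    linarith

end MP_476501_co
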