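import Mathlib

/-!
# MP_476501_co : unions of arcs on the circle of length one
-/

set_option autoImplicit false

namespace MP_476501_co

open MeasureTheory Set Filter Topology

variable {ι : Type*} [Fintype ι]

/-- indicator of the union of the arcs starting at `a i` with length `l i` -/
noncomputable def cov (a l : ι → ℝ) (x : ℝ) : ℝ := by
  classical
  exact if ∃ i, Int.fract (x - a i) < l i then 1 else 0

lemma cov_eq_one {a l : ι → ℝ} {x : ℝ} (h : ∃ i, Int.fract (x - a i) < l i) : cov a l x = 1 := by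
  classical
  unfold cov
  rw [if_pos h]

lemma cov_eq_zero {a l : ι → ℝ} {x : ℝ} (h : ¬ ∃ i, Int.fract (x - a i) < l i) :
    cov a l x = 0 := by
  classical
  unfold cov
  rw [if_neg h]

lemma cov_nonneg (a l : ι → ℝ) (x : ℝ) : 0 ≤ cov a l x := by
  by_cases h : ∃ i, Int.fract (x - a i) < l i
  · rw [cov_eq_one h]; norm_num
  · rw [cov_eq_zero h]

lemma cov_le_one (a l : ι → ℝ) (x : ℝ) : cov a l x ≤ 1 := by
  by_cases h : ∃ i, Int.fract (x - a i) < l i
  · rw [cov_eq_one h]
  · rw [cov_eq_zero h]; norm_num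

lemma cov_add_int (a l : ι → ℝ) (x : ℝ) (m : ℤ) : cov a l (x + m) = cov a l x := by
  have : ∀ i, Int.fract (x + m - a i) = Int.fract (x - a i) := by
    intro i
    have : x + m - a i = (x - a i) + m := by ring
    rw [this, Int.fract_add_intCast]
  by_cases h : ∃ i, Int.fract (x - a i) < l i
  · rw [cov_eq_one h, cov_eq_one]
    obtain ⟨i, hi⟩ := h
    exact ⟨i, by rw [this]; exact hi⟩
  · rw [cov_eq_zero h, cov_eq_zero]
    rintro ⟨i, hi⟩
    exact h ⟨i, by rw [← this]; exact hi⟩

lemma measurable_cov (a l : ι → ℝ) : Measurable (cov a l) := by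
  classical
  have hset : MeasurableSet {x : ℝ | ∃ i, Int.fract (x - a i) < l i} := by
    have : {x : ℝ | ∃ i, Int.fract (x - a i) < l i} = ⋃ i, {x : ℝ | Int.fract (x - a i) < l i} := by
      ext x; simp
    rw [this]
    apply MeasurableSet.iUnion
    intro i
    exact measurableSet_lt (measurable_fract.comp (measurable_id.sub_const _)) measurable_const
  have : cov a l = {x : ℝ | ∃ i, Int.fract (x - a i) < l i}.indicator (fun _ => (1:ℝ)) := by
    ext x
    by_cases h : ∃ i, Int.fract (x - a i) < l i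
    · rw [cov_eq_one h, Set.indicator_of_mem]
      exact h
    · rw [cov_eq_zero h, Set.indicator_of_notMem]
      exact h
  rw [this]
  exact measurable_const.indicator hset

lemma integrable_cov (a l : ι → ℝ) (u v : ℝ) : IntervalIntegrable (cov a l) volume u v := by
  apply IntervalIntegrable.mono_fun' (g := fun _ => (1:ℝ)) intervalIntegrable_const
    (measurable_cov a l).aestronglyMeasurable
  apply Eventually.of_forall
  intro x
  show ‖cov a l x‖ ≤ 1
  rw [Real.norm_eq_abs, abs_of_nonneg (cov_nonneg a l x)]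
  exact cov_le_one a l x

/-- the fraction of the cell `[k/N,(k+1)/N)` covered by the arcs -/
noncomputable def X (N : ℕ) (a l : ι → ℝ) (k : ℤ) : ℝ :=
  N * ∫ x in ((k:ℝ) / N)..(((k:ℝ) + 1) / N), cov a l x

variable {N : ℕ}

lemma cell_le (hN : 0 < N) (k : ℤ) : (k:ℝ) / N ≤ ((k:ℝ) + 1) / N := by
  have : (0:ℝ) < N := by exact_mod_cast hN
  gcongr
  linarith

lemma X_nonneg (hN : 0 < N) (a l : ι → ℝ) (k : ℤ) : 0 ≤ X N a l k := by
  unfold X
  apply mul_nonneg (Nat.cast_nonneg _)
  exact intervalIntegral.integral_nonneg (cell_le hN k) (fun x _ => cov_nonneg a l x)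

lemma X_le_one (hN : 0 < N) (a l : ι → ℝ) (k : ℤ) : X N a l k ≤ 1 := by
  unfold X
  have hN' : (0:ℝ) < N := by exact_mod_cast hN
  have h1 : ∫ x in ((k:ℝ) / N)..(((k:ℝ) + 1) / N), cov a l x ≤
      ∫ _x in ((k:ℝ) / N)..(((k:ℝ) + 1) / N), (1:ℝ) :=
    intervalIntegral.integral_mono_on (cell_le hN k) (integrable_cov a l _ _)
      intervalIntegrable_const (fun x _ => cov_le_one a l x)
  rw [intervalIntegral.integral_const, smul_eq_mul, mul_one] at h1
  calc (N:ℝ) * ∫ x in ((k:ℝ) / N)..(((k:ℝ) + 1) / N), cov a l x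
      ≤ N * (((k:ℝ) + 1) / N - (k:ℝ) / N) := mul_le_mul_of_nonneg_left h1 hN'.le
    _ = 1 := by field_simp; ring

lemma X_eq_one (hN : 0 < N) (a l : ι → ℝ) (k : ℤ)
    (h : ∀ x ∈ Ico ((k:ℝ) / N) (((k:ℝ) + 1) / N), cov a l x = 1) : X N a l k = 1 := by
  unfold X
  have hN' : (0:ℝ) < N := by exact_mod_cast hN
  have h1 : ∫ x in ((k:ℝ) / N)..(((k:ℝ) + 1) / N), cov a l x =
      ∫ _x in ((k:ℝ) / N)..(((k:ℝ) + 1) / N), (1:ℝ) := by
    rw [intervalIntegral.integral_of_le (cell_le hN k), intervalIntegral.integral_of_le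
      (cell_le hN k), ← MeasureTheory.integral_Ico_eq_integral_Ioc,
      ← MeasureTheory.integral_Ico_eq_integral_Ioc]
    exact MeasureTheory.setIntegral_congr_fun measurableSet_Ico h
  rw [h1, intervalIntegral.integral_const, smul_eq_mul, mul_one]
  field_simp
  ring

lemma X_eq_zero (hN : 0 < N) (a l : ι → ℝ) (k : ℤ)
    (h : ∀ x ∈ Ico ((k:ℝ) / N) (((k:ℝ) + 1) / N), cov a l x = 0) : X N a l k = 0 := by
  unfold X
  have h1 : ∫ x in ((k:ℝ) / N)..(((k:ℝ) + 1) / N), cov a l x =
      ∫ _x in ((k:ℝ) / N)..(((k:ℝ) + 1) / N), (0:ℝ) := by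
    rw [intervalIntegral.integral_of_le (cell_le hN k), intervalIntegral.integral_of_le
      (cell_le hN k), ← MeasureTheory.integral_Ico_eq_integral_Ioc,
      ← MeasureTheory.integral_Ico_eq_integral_Ioc]
    exact MeasureTheory.setIntegral_congr_fun measurableSet_Ico h
  rw [h1]
  simp

lemma X_congr (a l : ι → ℝ) {ι' : Type*} [Fintype ι'] (a' l' : ι' → ℝ)
    (h : ∀ x, cov a l x = cov a' l' x) (k : ℤ) : X N a l k = X N a' l' k := by
  unfold X
  have : cov a l = cov a' l' := funext h
  rw [this]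

lemma X_add_period (hN : 0 < N) (a l : ι → ℝ) (k : ℤ) (m : ℤ) :
    X N a l (k + m * N) = X N a l k := by
  unfold X
  have hN' : (N:ℝ) ≠ 0 := by
    have : (0:ℝ) < N := by exact_mod_cast hN
    exact this.ne'
  congr 1
  have e1 : ((k + m * N : ℤ) : ℝ) / N = (k:ℝ) / N + m := by
    push_cast
    field_simp
  have e2 : (((k + m * N : ℤ) : ℝ) + 1) / N = ((k:ℝ) + 1) / N + m := by
    push_cast
    field_simp
    ring
  rw [e1, e2, ← intervalIntegral.integral_comp_add_right (fun x => cov a l x) (m:ℝ)]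
  apply intervalIntegral.integral_congr
  intro x _
  exact cov_add_int a l x m

/-- comparison of neighbouring cells -/
lemma X_le_pred (hN : 0 < N) (a l : ι → ℝ) (k : ℤ)
    (h : ∀ x ∈ Ico ((k:ℝ) / N) (((k:ℝ) + 1) / N), cov a l x ≤ cov a l (x - 1 / N)) :
    X N a l k ≤ X N a l (k - 1) := by
  unfold X
  have hN' : (0:ℝ) < N := by exact_mod_cast hN
  apply mul_le_mul_of_nonneg_left _ hN'.le
  have e1 : (((k - 1 : ℤ) : ℝ)) / N = (k:ℝ) / N - 1 / N := by
    push_cast
    field_simp
  have e2 : (((k - 1 : ℤ) : ℝ) + 1) / N = ((k:ℝ) + 1) / N - 1 / N := by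
    push_cast
    field_simp
    ring
  rw [e1, e2, ← intervalIntegral.integral_comp_sub_right (fun x => cov a l x) (1 / (N:ℝ))]
  rw [intervalIntegral.integral_of_le (cell_le hN k), intervalIntegral.integral_of_le
      (cell_le hN k), ← MeasureTheory.integral_Ico_eq_integral_Ioc,
      ← MeasureTheory.integral_Ico_eq_integral_Ioc]
  have hint : ∀ (f : ℝ → ℝ), Measurable f → (∀ x, 0 ≤ f x) → (∀ x, f x ≤ 1) →
      IntegrableOn f (Ico ((k:ℝ) / N) (((k:ℝ) + 1) / N)) volume := by
    intro f hf h0 h1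
    apply Integrable.mono' (g := fun _ => (1:ℝ)) _ hf.aestronglyMeasurable
    · apply Eventually.of_forall
      intro x
      rw [Real.norm_eq_abs, abs_of_nonneg (h0 x)]
      exact h1 x
    · exact integrableOn_const (by simp)
  apply MeasureTheory.setIntegral_mono_on _ _ measurableSet_Ico h
  · exact hint _ (measurable_cov a l) (cov_nonneg a l) (cov_le_one a l)
  · exact hint _ ((measurable_cov a l).comp (measurable_id.sub_const _))
      (fun x => cov_nonneg a l _) (fun x => cov_le_one a l _)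

/-- continuity of the covered fraction -/
theorem continuous_X (k : ℤ) : Continuous (fun p : (ι → ℝ) × (ι → ℝ) => X N p.1 p.2 k) := by
  unfold X
  apply Continuous.mul continuous_const
  rw [continuous_iff_continuousAt]
  intro p0
  apply intervalIntegral.continuousAt_of_dominated_interval (bound := fun _ => (1:ℝ))
  · exact Eventually.of_forall (fun p => (measurable_cov p.1 p.2).aestronglyMeasurable)
  · apply Eventually.of_forall
    intro p
    apply Eventually.of_forall
    intro x _
    rw [Real.norm_eq_abs, abs_of_nonneg (cov_nonneg p.1 p.2 x)]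
    exact cov_le_one p.1 p.2 x
  · exact intervalIntegrable_const
  · -- almost everywhere continuity
    have hcount : (⋃ i : ι, ((range fun m : ℤ => p0.1 i + m) ∪
        (range fun m : ℤ => p0.1 i + p0.2 i + m))).Countable := by
      apply Set.countable_iUnion
      intro i
      exact (Set.countable_range _).union (Set.countable_range _)
    have hae : ∀ᵐ x : ℝ, x ∉ (⋃ i : ι, ((range fun m : ℤ => p0.1 i + m) ∪
        (range fun m : ℤ => p0.1 i + p0.2 i + m))) := by
      exact hcount.ae_notMem _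
    filter_upwards [hae] with x hx _
    simp only [mem_iUnion, mem_union, mem_range, not_exists, not_or] at hx
    -- continuity at p0
    have hfr : ∀ i, ContinuousAt (fun p : (ι → ℝ) × (ι → ℝ) => Int.fract (x - p.1 i)) p0 := by
      intro i
      have h1 : ContinuousAt (fun y : ℝ => Int.fract y) (x - p0.1 i) := by
        apply continuousAt_fract
        intro hcon
        have := (hx i).1 ⌊x - p0.1 i⌋
        apply this
        have h2 : (⌊x - p0.1 i⌋ : ℝ) = x - p0.1 i := by
          rw [← hcon]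
        linarith
      have h2 : ContinuousAt (fun p : (ι → ℝ) × (ι → ℝ) => x - p.1 i) p0 := by
        fun_prop
      exact ContinuousAt.comp (f := fun p : (ι → ℝ) × (ι → ℝ) => x - p.1 i)
        (g := fun y : ℝ => Int.fract y) h1 h2
    have hli : ∀ i, ContinuousAt (fun p : (ι → ℝ) × (ι → ℝ) => p.2 i) p0 := by
      intro i
      fun_prop
    have hstab : ∀ i, ∀ᶠ p in 𝓝 p0, (Int.fract (x - p.1 i) < p.2 i ↔
        Int.fract (x - p0.1 i) < p0.2 i) := by
      intro i
      rcases lt_trichotomy (Int.fract (x - p0.1 i)) (p0.2 i) with h | h | h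
      · filter_upwards [(hfr i).eventually_lt (hli i) h] with p hp
        exact iff_of_true hp h
      · exfalso
        apply (hx i).2 ⌊x - p0.1 i⌋
        rw [← h]
        have := Int.floor_add_fract (x - p0.1 i)
        linarith
      · filter_upwards [(hli i).eventually_lt (hfr i) h] with p hp
        exact iff_of_false (not_lt.mpr hp.le) (not_lt.mpr h.le)
    have hall : ∀ᶠ p in 𝓝 p0, ∀ i, (Int.fract (x - p.1 i) < p.2 i ↔
        Int.fract (x - p0.1 i) < p0.2 i) := eventually_all.mpr hstab
    have heq : (fun p : (ι → ℝ) × (ι → ℝ) => cov p.1 p.2 x) =ᶠ[𝓝 p0] fun _ => cov p0.1 p0.2 x := by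
      filter_upwards [hall] with p hp
      by_cases h : ∃ i, Int.fract (x - p0.1 i) < p0.2 i
      · rw [cov_eq_one h, cov_eq_one]
        obtain ⟨i, hi⟩ := h
        exact ⟨i, (hp i).mpr hi⟩
      · rw [cov_eq_zero h, cov_eq_zero]
        rintro ⟨i, hi⟩
        exact h ⟨i, (hp i).mp hi⟩
    exact continuousAt_const.congr heq.symm

end MP_476501_co
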