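import Pool.Agent.Work.MP_476501_co.Arcs

/-!
# MP_476501_co : cells away from the ends of the arcs
-/

set_option autoImplicit false

namespace MP_476501_co

open MeasureTheory Set Filter Topology

variable {ι : Type*} [Fintype ι] {N : ℕ}

/-- the (integer) index of the cell `(q/N,(q+1)/N]` containing the end of the arc -/
noncomputable def endc (N : ℕ) (a l : ι → ℝ) (i : ι) : ℤ := ⌈(N:ℝ) * (a i + l i)⌉ - 1

theorem zero_or_one (hN : 0 < N) (a l : ι → ℝ) (hl : ∀ i, l i ≤ 1) (k : ℤ)
    (h1 : ∀ i, ¬ (N:ℤ) ∣ (k - endc N a l i)) (h2 : ∀ i, ¬ (N:ℤ) ∣ (k + 1 - endc N a l i)) :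
    X N a l k = 0 ∨ X N a l (k + 1) = 1 := by
  have hN' : (0:ℝ) < N := by exact_mod_cast hN
  by_cases hcov : ∃ x ∈ Ico ((k:ℝ) / N) (((k:ℝ) + 1) / N), cov a l x ≠ 0
  · right
    obtain ⟨x, hx, hxc⟩ := hcov
    have hex : ∃ i, Int.fract (x - a i) < l i := by
      by_contra hcon
      exact hxc (cov_eq_zero hcon)
    obtain ⟨i, hi⟩ := hex
    apply X_eq_one hN
    intro y hy
    apply cov_eq_one
    refine ⟨i, ?_⟩
    set f := Int.fract (x - a i) with hf
    set m := ⌊x - a i⌋ with hm
    have hxa : x - a i = m + f := by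
      have := Int.floor_add_fract (x - a i)
      linarith
    have hf0 : 0 ≤ f := Int.fract_nonneg _
    -- the end of the arc
    set q : ℤ := endc N a l i + m * N with hq
    have hE1 : (q:ℝ) < N * (x + (l i - f)) := by
      have h3 : (⌈(N:ℝ) * (a i + l i)⌉ : ℝ) < N * (a i + l i) + 1 := Int.ceil_lt_add_one _
      have h4 : x + (l i - f) = a i + l i + m := by linarith
      rw [h4, hq]
      unfold endc
      push_cast
      nlinarith
    have hE2 : N * (x + (l i - f)) ≤ (q:ℝ) + 1 := by
      have h3 : N * (a i + l i) ≤ (⌈(N:ℝ) * (a i + l i)⌉ : ℝ) := Int.le_ceil _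
      have h4 : x + (l i - f) = a i + l i + m := by linarith
      rw [h4, hq]
      unfold endc
      push_cast
      nlinarith
    have hxk : (k:ℝ) ≤ N * x := by
      have := hx.1
      rw [div_le_iff₀ hN'] at this
      linarith
    have hqk : k < q + 1 := by
      have : (k:ℝ) < (q:ℝ) + 1 := by
        have : N * x < N * (x + (l i - f)) := by
          apply mul_lt_mul_of_pos_left _ hN'
          linarith
        linarith
      exact_mod_cast this
    have hne1 : q ≠ k := by
      intro h
      apply h1 i
      refine ⟨m, ?_⟩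
      rw [← h, hq]; ring
    have hne2 : q ≠ k + 1 := by
      intro h
      apply h2 i
      refine ⟨m, ?_⟩
      rw [← h, hq]; ring
    have hq2 : k + 2 ≤ q := by omega
    have hq2' : (k:ℝ) + 2 ≤ q := by exact_mod_cast hq2
    have hy1 : ((k:ℝ) + 1) ≤ N * y := by
      have := hy.1
      rw [div_le_iff₀ hN'] at this
      push_cast at this
      linarith
    have hy2 : N * y < (k:ℝ) + 2 := by
      have := hy.2
      rw [lt_div_iff₀ hN'] at this
      push_cast at this
      linarith
    have hx2 : N * x < (k:ℝ) + 1 := by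
      have := hx.2
      rw [lt_div_iff₀ hN'] at this
      linarith
    have hxy : x < y := by
      have : N * x < N * y := by linarith
      exact lt_of_mul_lt_mul_left this hN'.le
    have hyE : y < x + (l i - f) := by
      have : N * y < N * (x + (l i - f)) := by linarith
      exact lt_of_mul_lt_mul_left this hN'.le
    have hfr : Int.fract (y - a i) = f + (y - x) := by
      rw [Int.fract_eq_iff]
      refine ⟨by linarith, by linarith [hl i], ⟨m, ?_⟩⟩
      linarith
    rw [hfr]
    linarith
  · left
    push Not at hcov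
    exact X_eq_zero hN a l k hcov

end MP_476501_co
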