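import Mathlib

/-!
# MP_476501_co : rounding
-/

set_option autoImplicit false

namespace MP_476501_co

open Finset

/-- the weight of colour `i` at a position with colours `a`, `b` and fraction `x` -/
noncomputable def wt {h : ℕ} (a b : Fin h) (x : ℝ) (i : Fin h) : ℝ :=
  (if a = i then x else 0) + (if b = i then 1 - x else 0)

lemma wt_nonneg {h : ℕ} (a b : Fin h) {x : ℝ} (h0 : 0 ≤ x) (h1 : x ≤ 1) (i : Fin h) :
    0 ≤ wt a b x i := by
  unfold wt
  split_ifs <;> linarith

lemma sum_wt {h : ℕ} (a b : Fin h) (x : ℝ) : ∑ i, wt a b x i = 1 := by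
  unfold wt
  rw [Finset.sum_add_distrib, Finset.sum_ite_eq, Finset.sum_ite_eq]
  simp

/-- rounding lemma: an integral choice on the kept positions `Dᶜ` -/
theorem rounding {h ℓ : ℕ} (a b : Fin ℓ → Fin h) (x : Fin ℓ → ℝ) (hx0 : ∀ j, 0 ≤ x j)
    (hx1 : ∀ j, x j ≤ 1) (D : Finset (Fin ℓ)) (k : Fin h → ℕ)
    (hk : ∀ i, ∑ j, wt (a j) (b j) (x j) i = k i) :
    ∃ y : Fin ℓ → Bool, (∀ j ∉ D, x j = 1 → y j = true) ∧ (∀ j ∉ D, x j = 0 → y j = false) ∧
      ∀ i, (univ.filter (fun j => j ∉ D ∧ (if y j then a j else b j) = i)).card ≤ k i := by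
  classical
  -- allowed colours
  set ok : Fin ℓ → Fin h → Prop := fun j i => (a j = i ∧ 0 < x j) ∨ (b j = i ∧ x j < 1) with hok
  have hzero : ∀ j i, ¬ ok j i → wt (a j) (b j) (x j) i = 0 := by
    intro j i hn
    simp only [hok, not_or, not_and, not_lt] at hn
    unfold wt
    have e1 : (if a j = i then x j else 0) = 0 := by
      split_ifs with h1
      · exact le_antisymm (hn.1 h1) (hx0 j)
      · rfl
    have e2 : (if b j = i then 1 - x j else 0) = 0 := by
      split_ifs with h1
      · have := hn.2 h1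
        linarith [hx1 j]
      · rfl
    rw [e1, e2, add_zero]
  -- slots
  let slots : {j : Fin ℓ // j ∉ D} → Finset (Σ i : Fin h, Fin (k i)) :=
    fun j => univ.filter (fun s => ok j.1 s.1)
  have hall : ∀ T : Finset {j : Fin ℓ // j ∉ D}, T.card ≤ (T.biUnion slots).card := by
    intro T
    set NT : Finset (Fin h) := univ.filter (fun i => ∃ j ∈ T, ok j.1 i) with hNT
    have h1 : (T.biUnion slots).card = ∑ i ∈ NT, k i := by
      have : T.biUnion slots = NT.sigma (fun i => (univ : Finset (Fin (k i)))) := by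
        ext s
        simp only [slots, mem_biUnion, mem_filter, mem_univ, true_and, mem_sigma, hNT, and_true]
      rw [this, Finset.card_sigma]
      simp
    rw [h1]
    have h2 : (T.card : ℝ) ≤ ((∑ i ∈ NT, k i : ℕ) : ℝ) := by
      have e1 : (T.card : ℝ) = ∑ j ∈ T, ∑ i, wt (a j.1) (b j.1) (x j.1) i := by
        rw [Finset.sum_congr rfl (fun j _ => sum_wt _ _ _)]
        simp
      have e2 : ∀ j ∈ T, ∑ i, wt (a j.1) (b j.1) (x j.1) i =
          ∑ i ∈ NT, wt (a j.1) (b j.1) (x j.1) i := by
        intro j hj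
        symm
        apply Finset.sum_subset (Finset.subset_univ _)
        intro i _ hi
        apply hzero
        intro hcon
        apply hi
        simp only [hNT, mem_filter, mem_univ, true_and]
        exact ⟨j, hj, hcon⟩
      rw [e1, Finset.sum_congr rfl e2, Finset.sum_comm]
      push_cast
      apply Finset.sum_le_sum
      intro i _
      rw [← hk i]
      calc ∑ j ∈ T, wt (a j.1) (b j.1) (x j.1) i
          = ∑ j ∈ T.map ⟨Subtype.val, Subtype.val_injective⟩, wt (a j) (b j) (x j) i := by
            rw [Finset.sum_map]; rfl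
        _ ≤ ∑ j, wt (a j) (b j) (x j) i :=
            Finset.sum_le_sum_of_subset_of_nonneg (Finset.subset_univ _)
              (fun j _ _ => wt_nonneg _ _ (hx0 j) (hx1 j) i)
    exact_mod_cast h2
  obtain ⟨f, hf, hfs⟩ := (Finset.all_card_le_biUnion_card_iff_exists_injective slots).mp hall
  have hfok : ∀ j : {j : Fin ℓ // j ∉ D}, ok j.1 (f j).1 := by
    intro j
    have := hfs j
    simp only [slots, mem_filter, mem_univ, true_and] at this
    exact this
  refine ⟨fun j => if hj : j ∉ D then decide (a j = (f ⟨j, hj⟩).1 ∧ 0 < x j) else true, ?_, ?_, ?_⟩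
  · intro j hj hxj
    simp only [hj, not_false_eq_true, dif_pos, decide_eq_true_eq]
    rcases hfok ⟨j, hj⟩ with h1 | h1
    · exact h1
    · exact absurd hxj h1.2.ne
  · intro j hj hxj
    simp only [hj, not_false_eq_true, dif_pos, decide_eq_false_iff_not]
    rintro ⟨_, h1⟩
    exact h1.ne' hxj
  · intro i
    have hcol : ∀ j (hj : j ∉ D), (if (if hj : j ∉ D then decide (a j = (f ⟨j, hj⟩).1 ∧ 0 < x j)
        else true) = true then a j else b j) = (f ⟨j, hj⟩).1 := by
      intro j hj
      simp only [hj, not_false_eq_true, dif_pos, decide_eq_true_eq]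
      split_ifs with h1
      · exact h1.1
      · rcases hfok ⟨j, hj⟩ with h2 | h2
        · exact absurd h2 h1
        · exact h2.1
    have hcard : (univ.filter (fun s : Σ i : Fin h, Fin (k i) => s.1 = i)).card = k i := by
      have : univ.filter (fun s : Σ i : Fin h, Fin (k i) => s.1 = i) =
          ({i} : Finset (Fin h)).sigma (fun i => (univ : Finset (Fin (k i)))) := by
        ext s
        simp
      rw [this, Finset.card_sigma]
      simp
    rw [← hcard, ← Fintype.card_coe, ← Fintype.card_coe]
    refine Fintype.card_le_of_injective (fun j => ⟨f ⟨j.1, (mem_filter.mp j.2).2.1⟩, ?_⟩) ?_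
    · rw [mem_filter]
      refine ⟨mem_univ _, ?_⟩
      exact (hcol j.1 (mem_filter.mp j.2).2.1).symm.trans (mem_filter.mp j.2).2.2
    · intro j j' hjj
      simp only [Subtype.mk.injEq] at hjj
      have := hf hjj
      simp only [Subtype.mk.injEq] at this
      exact Subtype.ext this

end MP_476501_co
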