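import Pool.Agent.Work.MP_476501_co.GenPos
import Pool.Agent.Work.MP_476501_co.EndCell
import Pool.Agent.Work.MP_476501_co.Round

/-!
# MP_476501_co : assembly
-/

set_option autoImplicit false

namespace MP_476501_co

open Finset

/-- the two end vertices of the edge `e_i` (`1 ≤ i ≤ 2ℓ`) of the cycle with vertices
`0, …, 2ℓ - 1` -/
def ends (ℓ i : ℕ) : Finset ℕ := {i - 1, i % (2 * ℓ)}

/-- a set of labels of pairwise disjoint edges of the cycle of length `2ℓ` -/
def IsMatching (ℓ : ℕ) (M : Finset ℕ) : Prop :=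
  M ⊆ Finset.Icc 1 (2 * ℓ) ∧ ∀ i ∈ M, ∀ j ∈ M, i ≠ j → Disjoint (ends ℓ i) (ends ℓ j)

/-- the colour vector -/
def cvec {h : ℕ} (c : ℕ → Fin h) (M : Finset ℕ) (i : Fin h) : ℕ :=
  (M.filter (fun e => c e = i)).card

/-- the perfect matching `{e_2, e_4, …, e_{2ℓ}}` -/
def M0 (ℓ : ℕ) : Finset ℕ := (Finset.Icc 1 (2 * ℓ)).filter (fun e => Even e)

/-- the perfect matching `{e_1, e_3, …, e_{2ℓ-1}}` -/
def M1 (ℓ : ℕ) : Finset ℕ := (Finset.Icc 1 (2 * ℓ)).filter (fun e => Odd e)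

lemma M0_eq (ℓ : ℕ) : M0 ℓ = univ.image (fun j : Fin ℓ => 2 * (j:ℕ) + 2) := by
  ext e
  simp only [M0, mem_filter, Finset.mem_Icc, mem_image, mem_univ, true_and]
  constructor
  · rintro ⟨⟨h1, h2⟩, ⟨m, hm⟩⟩
    exact ⟨⟨m - 1, by omega⟩, by show 2 * (m - 1) + 2 = e; omega⟩
  · rintro ⟨j, rfl⟩
    have := j.2
    exact ⟨⟨by omega, by omega⟩, ⟨(j:ℕ) + 1, by ring⟩⟩

lemma M1_eq (ℓ : ℕ) : M1 ℓ = univ.image (fun j : Fin ℓ => 2 * (j:ℕ) + 1) := by
  ext e
  simp only [M1, mem_filter, Finset.mem_Icc, mem_image, mem_univ, true_and]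
  constructor
  · rintro ⟨⟨h1, h2⟩, ⟨m, hm⟩⟩
    exact ⟨⟨m, by omega⟩, by show 2 * m + 1 = e; omega⟩
  · rintro ⟨j, rfl⟩
    have := j.2
    exact ⟨⟨by omega, by omega⟩, ⟨(j:ℕ), rfl⟩⟩

lemma cvec_image {h ℓ : ℕ} (c : ℕ → Fin h) (D : Finset (Fin ℓ)) (f : Fin ℓ → ℕ)
    (hf : Function.Injective f) (i : Fin h) :
    cvec c (D.image f) i = (D.filter (fun j => c (f j) = i)).card := by
  unfold cvec
  rw [Finset.filter_image, Finset.card_image_of_injective _ hf]

/-- the edge chosen at a position -/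
def E (y : Bool) (j : ℕ) : ℕ := if y then 2 * j + 2 else 2 * j + 1

lemma E_inj {y y' : Bool} {j j' : ℕ} (h : E y j = E y' j') : y = y' ∧ j = j' := by
  unfold E at h
  cases y <;> cases y' <;> simp at h <;> constructor <;> first | rfl | omega

/-- from fractional data to a matching -/
theorem assemble {h ℓ : ℕ} [NeZero ℓ] (c : ℕ → Fin h) (k : Fin h → ℤ) (x : Fin ℓ → ℝ)
    (hx0 : ∀ j, 0 ≤ x j) (hx1 : ∀ j, x j ≤ 1) (D : Finset (Fin ℓ)) (hD : D.card + 2 ≤ h)
    (hmono : ∀ j, j ∉ D → j + 1 ∉ D → x j = 0 ∨ x (j + 1) = 1)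
    (hk : ∀ i, ∑ j : Fin ℓ, wt (c (2 * (j:ℕ) + 2)) (c (2 * (j:ℕ) + 1)) (x j) i = k i) :
    ∃ M : Finset ℕ, IsMatching ℓ M ∧ (ℓ:ℤ) - h + 2 ≤ M.card ∧
      (∀ i, (cvec c M i : ℤ) ≤ k i) ∧ ∑ i, |(cvec c M i : ℤ) - k i| ≤ (h:ℤ) - 2 := by
  classical
  have hℓ : 0 < ℓ := Nat.pos_of_ne_zero (NeZero.ne ℓ)
  have hk0 : ∀ i, 0 ≤ k i := by
    intro i
    have : (0:ℝ) ≤ k i := by
      rw [← hk i]
      exact Finset.sum_nonneg (fun j _ => wt_nonneg _ _ (hx0 j) (hx1 j) i)
    exact_mod_cast this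
  have hkn : ∀ i, ∑ j : Fin ℓ, wt (c (2 * (j:ℕ) + 2)) (c (2 * (j:ℕ) + 1)) (x j) i =
      ((k i).toNat : ℝ) := by
    intro i
    rw [hk i]
    have : ((k i).toNat : ℤ) = k i := Int.toNat_of_nonneg (hk0 i)
    exact_mod_cast this.symm
  obtain ⟨y, hy1, hy0, hcount⟩ := rounding (fun j : Fin ℓ => c (2 * (j:ℕ) + 2))
    (fun j : Fin ℓ => c (2 * (j:ℕ) + 1)) x hx0 hx1 D (fun i => (k i).toNat) hkn
  set f : Fin ℓ → ℕ := fun j => E (y j) j with hf
  have hfinj : Function.Injective f := fun j j' h => Fin.ext (E_inj h).2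
  set M : Finset ℕ := (Dᶜ).image f with hM
  have hcol : ∀ j, c (f j) = if y j then c (2 * (j:ℕ) + 2) else c (2 * (j:ℕ) + 1) := by
    intro j
    simp only [hf, E]
    cases y j <;> rfl
  have hcv : ∀ i, cvec c M i ≤ (k i).toNat := by
    intro i
    rw [hM, cvec_image c _ f hfinj i]
    refine le_trans (Finset.card_le_card ?_) (hcount i)
    intro j hj
    rw [mem_filter, mem_compl] at hj
    rw [mem_filter]
    refine ⟨mem_univ _, hj.1, ?_⟩
    rw [← hj.2, hcol j]
  have hcvz : ∀ i, (cvec c M i : ℤ) ≤ k i := by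
    intro i
    have h1 : ((k i).toNat : ℤ) = k i := Int.toNat_of_nonneg (hk0 i)
    have h2 : (cvec c M i : ℤ) ≤ ((k i).toNat : ℤ) := by exact_mod_cast hcv i
    linarith
  have hcardM : M.card = ℓ - D.card := by
    rw [hM, Finset.card_image_of_injective _ hfinj, Finset.card_compl, Fintype.card_fin]
  have hDle : D.card ≤ ℓ := by
    have := Finset.card_le_univ D
    rwa [Fintype.card_fin] at this
  have hsumk : ∑ i, k i = ℓ := by
    have : ((∑ i, k i : ℤ) : ℝ) = ℓ := by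
      push_cast
      rw [Finset.sum_congr rfl (fun i _ => (hk i).symm), Finset.sum_comm,
        Finset.sum_congr rfl (fun j _ => sum_wt _ _ _)]
      simp
    exact_mod_cast this
  have hsumc : ∑ i, cvec c M i = M.card := by
    unfold cvec
    rw [← Finset.card_eq_sum_card_fiberwise (fun e _ => Finset.mem_coe.mpr (Finset.mem_univ _))]
  refine ⟨M, ⟨?_, ?_⟩, ?_, hcvz, ?_⟩
  · intro e he
    rw [hM, mem_image] at he
    obtain ⟨j, _, rfl⟩ := he
    rw [Finset.mem_Icc]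
    have := j.2
    simp only [hf, E]
    cases y j <;> simp <;> omega
  · -- disjointness
    have key : ∀ i ∈ M, ∀ j ∈ M, ¬ (j % (2 * ℓ) = (i + 1) % (2 * ℓ)) := by
      intro e he e' he' hadj
      rw [hM, mem_image] at he he'
      obtain ⟨j, hj, rfl⟩ := he
      obtain ⟨j', hj', rfl⟩ := he'
      rw [mem_compl] at hj hj'
      have hj2 := j.2
      have hj2' := j'.2
      simp only [hf, E] at hadj
      rcases hyj : y j with _ | _ <;> rcases hyj' : y j' with _ | _ <;>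
        simp only [hyj, hyj', if_true, if_false, Bool.false_eq_true] at hadj
      · -- both odd
        have h1 : (2 * (j':ℕ) + 1) % (2 * ℓ) = 2 * (j':ℕ) + 1 := Nat.mod_eq_of_lt (by omega)
        rw [h1] at hadj
        have h2 := Nat.div_add_mod (2 * (j:ℕ) + 1 + 1) (2 * ℓ)
        rw [← hadj] at h2
        have h3 : 2 * ℓ * ((2 * (j:ℕ) + 1 + 1) / (2 * ℓ)) =
          2 * (ℓ * ((2 * (j:ℕ) + 1 + 1) / (2 * ℓ))) := by ring
        omega
      · -- j odd, j' even: same position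
        have hjj : j' = j := by
          apply Fin.ext
          by_cases hlast : (j:ℕ) + 1 = ℓ
          · have h1 : (2 * (j:ℕ) + 1 + 1) % (2 * ℓ) = 0 := by
              have : 2 * (j:ℕ) + 1 + 1 = 2 * ℓ := by omega
              rw [this, Nat.mod_self]
            rw [h1] at hadj
            by_contra hne
            have h2 : (2 * (j':ℕ) + 2) % (2 * ℓ) = 2 * (j':ℕ) + 2 := Nat.mod_eq_of_lt (by omega)
            omega
          · have h1 : (2 * (j:ℕ) + 1 + 1) % (2 * ℓ) = 2 * (j:ℕ) + 1 + 1 :=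
              Nat.mod_eq_of_lt (by omega)
            rw [h1] at hadj
            by_cases hlast' : (j':ℕ) + 1 = ℓ
            · have h2 : (2 * (j':ℕ) + 2) % (2 * ℓ) = 0 := by
                have : 2 * (j':ℕ) + 2 = 2 * ℓ := by omega
                rw [this, Nat.mod_self]
              omega
            · have h2 : (2 * (j':ℕ) + 2) % (2 * ℓ) = 2 * (j':ℕ) + 2 :=
                Nat.mod_eq_of_lt (by omega)
              omega
        rw [hjj, hyj] at hyj'
        exact absurd hyj' (by decide)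
      · -- j even, j' odd : consecutive positions
        have hjj : j' = j + 1 := by
          apply Fin.ext
          rw [Fin.val_add]
          have e1 : ((1 : Fin ℓ) : ℕ) = 1 % ℓ := rfl
          rw [e1, Nat.add_mod_mod]
          have h1 : (2 * (j':ℕ) + 1) % (2 * ℓ) = 2 * (j':ℕ) + 1 := Nat.mod_eq_of_lt (by omega)
          rw [h1] at hadj
          by_cases hlast : (j:ℕ) + 1 = ℓ
          · rw [hlast, Nat.mod_self]
            have h2 : (2 * (j:ℕ) + 2 + 1) % (2 * ℓ) = 1 := by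
              have : 2 * (j:ℕ) + 2 + 1 = 1 + 2 * ℓ := by omega
              rw [this, Nat.add_mod_right]
              exact Nat.mod_eq_of_lt (by omega)
            omega
          · rw [Nat.mod_eq_of_lt (by omega : (j:ℕ) + 1 < ℓ)]
            have h2 : (2 * (j:ℕ) + 2 + 1) % (2 * ℓ) = 2 * (j:ℕ) + 2 + 1 :=
              Nat.mod_eq_of_lt (by omega)
            omega
        rw [hjj] at hj' hyj'
        rcases hmono j hj hj' with h1 | h1
        · have := hy0 j hj h1
          rw [hyj] at this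
          exact absurd this (by decide)
        · have := hy1 (j + 1) hj' h1
          rw [hyj'] at this
          exact absurd this (by decide)
      · -- both even
        have h2 := Nat.div_add_mod (2 * (j:ℕ) + 2 + 1) (2 * ℓ)
        have h4 := Nat.div_add_mod (2 * (j':ℕ) + 2) (2 * ℓ)
        rw [← hadj] at h2
        have h3 : 2 * ℓ * ((2 * (j:ℕ) + 2 + 1) / (2 * ℓ)) =
          2 * (ℓ * ((2 * (j:ℕ) + 2 + 1) / (2 * ℓ))) := by ring
        have h5 : 2 * ℓ * ((2 * (j':ℕ) + 2) / (2 * ℓ)) =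
          2 * (ℓ * ((2 * (j':ℕ) + 2) / (2 * ℓ))) := by ring
        omega
    have hIcc : ∀ e ∈ M, 1 ≤ e ∧ e ≤ 2 * ℓ := by
      intro e he
      rw [hM, mem_image] at he
      obtain ⟨j, _, rfl⟩ := he
      have := j.2
      simp only [hf, E]
      cases y j <;> simp <;> omega
    intro i hi j hj hij
    rw [Finset.disjoint_left]
    intro v hv hv'
    have hi1 := hIcc i hi
    have hj1 := hIcc j hj
    simp only [ends, mem_insert, mem_singleton] at hv hv'
    have hsucc : ∀ e, 1 ≤ e → e ≤ 2 * ℓ → ∀ e', 1 ≤ e' → e' ≤ 2 * ℓ → e - 1 = e' % (2 * ℓ) →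
        e % (2 * ℓ) = (e' + 1) % (2 * ℓ) := by
      intro e h1 h2 e' _ _ h
      have : e = e' % (2 * ℓ) + 1 := by omega
      rw [this, Nat.mod_add_mod]
    have hmodinj : ∀ e, 1 ≤ e → e ≤ 2 * ℓ → ∀ e', 1 ≤ e' → e' ≤ 2 * ℓ →
        e % (2 * ℓ) = e' % (2 * ℓ) → e = e' := by
      intro e h1 h2 e' h3 h4 h
      rcases Nat.lt_or_ge e (2 * ℓ) with h5 | h5
      · rw [Nat.mod_eq_of_lt h5] at h
        rcases Nat.lt_or_ge e' (2 * ℓ) with h6 | h6
        · rwa [Nat.mod_eq_of_lt h6] at h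
        · have : e' = 2 * ℓ := le_antisymm h4 h6
          rw [this, Nat.mod_self] at h
          omega
      · have h7 : e = 2 * ℓ := le_antisymm h2 h5
        rcases Nat.lt_or_ge e' (2 * ℓ) with h6 | h6
        · rw [Nat.mod_eq_of_lt h6, h7, Nat.mod_self] at h
          omega
        · omega
    rcases hv with h1 | h1 <;> rcases hv' with h2 | h2
    · exact hij (by omega)
    · exact key j hj i hi (hsucc i hi1.1 hi1.2 j hj1.1 hj1.2 (h1.symm.trans h2))
    · exact key i hi j hj (hsucc j hj1.1 hj1.2 i hi1.1 hi1.2 (h2.symm.trans h1))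
    · exact hij (hmodinj i hi1.1 hi1.2 j hj1.1 hj1.2 (h1.symm.trans h2))
  · rw [hcardM]
    push_cast [Nat.cast_sub hDle]
    have : (D.card : ℤ) + 2 ≤ h := by exact_mod_cast hD
    linarith
  · have h1 : ∀ i, |(cvec c M i : ℤ) - k i| = k i - cvec c M i := by
      intro i
      rw [abs_of_nonpos (by linarith [hcvz i])]
      ring
    rw [Finset.sum_congr rfl (fun i _ => h1 i), Finset.sum_sub_distrib, hsumk]
    have h2 : ∑ i, (cvec c M i : ℤ) = (M.card : ℤ) := by
      rw [← hsumc]; push_cast; rfl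
    rw [h2, hcardM]
    push_cast [Nat.cast_sub hDle]
    have : (D.card : ℤ) + 2 ≤ h := by exact_mod_cast hD
    linarith

/-- fractional division with few ends of arcs -/
theorem fractional (hB : CubeFixed) {h ℓ : ℕ} (hh : 3 ≤ h) [NeZero ℓ] (a b : Fin ℓ → Fin h)
    (lam : ℝ) (h0 : 0 ≤ lam) (h1 : lam ≤ 1) :
    ∃ (x : Fin ℓ → ℝ) (D : Finset (Fin ℓ)), (∀ j, 0 ≤ x j) ∧ (∀ j, x j ≤ 1) ∧ D.card + 2 ≤ h ∧
      (∀ j, j ∉ D → j + 1 ∉ D → x j = 0 ∨ x (j + 1) = 1) ∧
      ∀ i, ∑ j, wt (a j) (b j) (x j) i =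
        lam * (univ.filter (fun j => a j = i)).card +
        (1 - lam) * (univ.filter (fun j => b j = i)).card := by
  classical
  have hℓ : 0 < ℓ := Nat.pos_of_ne_zero (NeZero.ne ℓ)
  -- the vectors
  set g : Fin ℓ → Fin h → ℝ := fun j i => (if a j = i then (1:ℝ) else 0) - (if b j = i then 1 else 0)
    with hg
  set V : Fin h → ℝ := fun i => ∑ j, g j i with hV
  have hcarda : ∀ i, ((univ.filter (fun j => a j = i)).card : ℝ) =
      ∑ j, (if a j = i then (1:ℝ) else 0) := by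
    intro i; rw [Finset.sum_boole]
  have hcardb : ∀ i, ((univ.filter (fun j => b j = i)).card : ℝ) =
      ∑ j, (if b j = i then (1:ℝ) else 0) := by
    intro i; rw [Finset.sum_boole]
  have hVi : ∀ i, V i = ((univ.filter (fun j => a j = i)).card : ℝ) -
      (univ.filter (fun j => b j = i)).card := by
    intro i
    rw [hcarda, hcardb, ← Finset.sum_sub_distrib]
  have hwt : ∀ (x : Fin ℓ → ℝ) i, ∑ j, wt (a j) (b j) (x j) i =
      ((univ.filter (fun j => b j = i)).card : ℝ) + ∑ j, x j * g j i := by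
    intro x i
    rw [hcardb, ← Finset.sum_add_distrib]
    apply Finset.sum_congr rfl
    intro j _
    simp only [wt, hg]
    split_ifs <;> ring
  -- it is enough to have `∑ x g = lam V`
  suffices hsuff : ∃ (x : Fin ℓ → ℝ) (D : Finset (Fin ℓ)), (∀ j, 0 ≤ x j) ∧ (∀ j, x j ≤ 1) ∧
      D.card + 2 ≤ h ∧ (∀ j, j ∉ D → j + 1 ∉ D → x j = 0 ∨ x (j + 1) = 1) ∧
      ∀ i, ∑ j, x j * g j i = lam * V i by
    obtain ⟨x, D, e1, e2, e3, e4, e5⟩ := hsuff
    refine ⟨x, D, e1, e2, e3, e4, ?_⟩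
    intro i
    rw [hwt, e5, hVi]
    ring
  by_cases hVz : ∀ i, V i = 0
  · refine ⟨fun _ => 1, ∅, fun _ => zero_le_one, fun _ => le_rfl, by simp; omega,
      fun _ _ _ => Or.inr rfl, ?_⟩
    intro i
    rw [hVz i, mul_zero]
    simp only [one_mul]
    exact hVz i
  push Not at hVz
  obtain ⟨i0, hi0⟩ := hVz
  rcases h0.eq_or_lt with hl0 | hl0
  · refine ⟨fun _ => 0, ∅, fun _ => le_rfl, fun _ => zero_le_one, by simp; omega,
      fun _ _ _ => Or.inl rfl, ?_⟩
    intro i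
    rw [← hl0]; simp
  rcases h1.eq_or_lt with hl1 | hl1
  · refine ⟨fun _ => 1, ∅, fun _ => zero_le_one, fun _ => le_rfl, by simp; omega,
      fun _ _ _ => Or.inr rfl, ?_⟩
    intro i
    rw [hl1]; simp [hV]
  -- the main case
  obtain ⟨i1, hi1⟩ : ∃ i1 : Fin h, i1 ≠ i0 := by
    have : Nontrivial (Fin h) := Fin.nontrivial_iff_two_le.mpr (by omega)
    exact exists_ne i0
  let ι := {i : Fin h // i ≠ i0 ∧ i ≠ i1}
  have hcardι : Fintype.card ι + 2 = h := by
    have e1 : Fintype.card ι = (univ.filter (fun i : Fin h => i ≠ i0 ∧ i ≠ i1)).card :=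
      Fintype.card_subtype _
    have e2 : univ.filter (fun i : Fin h => i ≠ i0 ∧ i ≠ i1) = ({i0, i1} : Finset (Fin h))ᶜ := by
      ext i
      simp [not_or]
    rw [e1, e2, Finset.card_compl, Fintype.card_fin, Finset.card_pair hi1.symm]
    omega
  have hne : Nonempty ι := by
    rw [← Fintype.card_pos_iff]
    omega
  set g0 : Fin ℓ → ℝ := fun j => g j i0 / V i0 with hg0
  have hg0sum : ∑ j, g0 j = 1 := by
    simp only [hg0]
    rw [← Finset.sum_div]
    exact div_self hi0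
  set g' : Fin ℓ → ι → ℝ := fun j i => g j i.1 - V i.1 / V i0 * g j i0 with hg'
  have hg'sum : ∀ i, ∑ j, g' j i = 0 := by
    intro i
    simp only [hg']
    rw [Finset.sum_sub_distrib, ← Finset.mul_sum]
    show V i.1 - V i.1 / V i0 * V i0 = 0
    field_simp
    ring
  set p : Fin ℓ → ι → ℝ := fun j i => ∑ j' ∈ univ.filter (fun j' : Fin ℓ => (j':ℕ) < (j:ℕ)), g' j' i
    with hp
  have hpdiff : ∀ j i, p (j + 1) i - p j i = g' j i := by
    intro j i
    have hval : ((j + 1 : Fin ℓ) : ℕ) = ((j:ℕ) + 1) % ℓ := by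
      rw [Fin.val_add]
      have e1 : ((1 : Fin ℓ) : ℕ) = 1 % ℓ := rfl
      rw [e1, Nat.add_mod_mod]
    have hsplit : ∑ j' ∈ univ.filter (fun j' : Fin ℓ => (j':ℕ) < (j:ℕ) + 1), g' j' i =
        p j i + g' j i := by
      have : univ.filter (fun j' : Fin ℓ => (j':ℕ) < (j:ℕ) + 1) =
          insert j (univ.filter (fun j' : Fin ℓ => (j':ℕ) < (j:ℕ))) := by
        ext j'
        simp only [mem_filter, mem_univ, true_and, mem_insert]
        constructor
        · intro h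
          rcases Nat.lt_or_ge (j':ℕ) (j:ℕ) with h' | h'
          · exact Or.inr h'
          · exact Or.inl (Fin.ext (by omega))
        · rintro (h | h)
          · rw [h]; omega
          · omega
      rw [this, Finset.sum_insert (by simp)]
      ring
    by_cases hlast : (j:ℕ) + 1 = ℓ
    · have e1 : p (j + 1) i = 0 := by
        simp only [hp]
        rw [hval, hlast, Nat.mod_self]
        simp
      have e2 : ∑ j' ∈ univ.filter (fun j' : Fin ℓ => (j':ℕ) < (j:ℕ) + 1), g' j' i = 0 := by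
        rw [← hg'sum i]
        apply Finset.sum_congr _ (fun _ _ => rfl)
        ext j'
        simp only [mem_filter, mem_univ, true_and, iff_true]
        have := j'.2
        omega
      rw [hsplit] at e2
      rw [e1]
      linarith
    · have hlt : (j:ℕ) + 1 < ℓ := by
        have := j.2
        omega
      have e1 : p (j + 1) i = p j i + g' j i := by
        rw [← hsplit]
        simp only [hp]
        rw [hval, Nat.mod_eq_of_lt hlt]
      rw [e1]; ring
  obtain ⟨s, l, hl, e1, e2⟩ := arcs_exact hB p g0 hg0sum lam hl0 hl1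
  set x : Fin ℓ → ℝ := fun j => X ℓ s l ((j:ℕ):ℤ) with hx
  -- the dropped cells
  set D : Finset (Fin ℓ) := univ.image (fun i : ι =>
    (⟨((endc ℓ s l i) % (ℓ:ℤ)).toNat, by
      have h1 : 0 ≤ (endc ℓ s l i) % (ℓ:ℤ) := Int.emod_nonneg _ (by exact_mod_cast hℓ.ne')
      have h2 : (endc ℓ s l i) % (ℓ:ℤ) < ℓ := Int.emod_lt_of_pos _ (by exact_mod_cast hℓ)
      omega⟩ : Fin ℓ)) with hD
  have hmemD : ∀ j : Fin ℓ, ∀ i : ι, (ℓ:ℤ) ∣ (((j:ℕ):ℤ) - endc ℓ s l i) → j ∈ D := by
    intro j i hdvd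
    rw [hD, mem_image]
    refine ⟨i, mem_univ _, ?_⟩
    apply Fin.ext
    show ((endc ℓ s l i) % (ℓ:ℤ)).toNat = (j:ℕ)
    have h3 : (((j:ℕ):ℤ)) % (ℓ:ℤ) = (endc ℓ s l i) % (ℓ:ℤ) :=
      Int.emod_eq_emod_iff_emod_sub_eq_zero.mpr (Int.emod_eq_zero_of_dvd hdvd)
    rw [← h3, Int.emod_eq_of_lt (by positivity) (by exact_mod_cast j.2)]
    simp
  refine ⟨x, D, fun j => X_nonneg hℓ _ _ _, fun j => X_le_one hℓ _ _ _, ?_, ?_, ?_⟩
  · have : D.card ≤ Fintype.card ι := by
      rw [hD]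
      exact Finset.card_image_le.trans (by rw [Finset.card_univ])
    omega
  · intro j hj hj'
    have hval : ((j + 1 : Fin ℓ) : ℕ) = ((j:ℕ) + 1) % ℓ := by
      rw [Fin.val_add]
      have e1 : ((1 : Fin ℓ) : ℕ) = 1 % ℓ := rfl
      rw [e1, Nat.add_mod_mod]
    obtain ⟨m, hm⟩ : ∃ m : ℤ, (((j + 1 : Fin ℓ) : ℕ) : ℤ) = ((j:ℕ):ℤ) + 1 + m * ℓ := by
      rw [hval]
      refine ⟨-((((j:ℕ) + 1 : ℕ) : ℤ) / ℓ), ?_⟩
      have := Int.emod_add_mul_ediv (((j:ℕ) + 1 : ℕ) : ℤ) (ℓ:ℤ)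
      push_cast at this ⊢
      linarith
    have hX1 : x (j + 1) = X ℓ s l (((j:ℕ):ℤ) + 1) := by
      show X ℓ s l ((((j + 1 : Fin ℓ) : ℕ) : ℤ)) = _
      rw [hm, X_add_period hℓ]
    rw [hX1]
    apply zero_or_one hℓ s l hl
    · intro i hdvd
      exact hj (hmemD j i hdvd)
    · intro i hdvd
      apply hj'
      apply hmemD (j + 1) i
      rw [hm]
      have : ((j:ℕ):ℤ) + 1 + m * ℓ - endc ℓ s l i = (((j:ℕ):ℤ) + 1 - endc ℓ s l i) + m * ℓ := by
        ring
      rw [this]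
      exact dvd_add hdvd (dvd_mul_left _ _)
  · -- the division identity
    have f0 : ∑ j, x j * g j i0 = lam * V i0 := by
      have : ∑ j, x j * g0 j = lam := e1
      rw [← this, Finset.sum_mul]
      apply Finset.sum_congr rfl
      intro j _
      simp only [hg0]
      field_simp
    have f1 : ∀ i : Fin h, i ≠ i1 → ∑ j, x j * g j i = lam * V i := by
      intro i hi
      by_cases hii : i = i0
      · rw [hii]; exact f0
      · have h3 := e2 ⟨i, hii, hi⟩
        have h4 : ∑ j, x j * g' j ⟨i, hii, hi⟩ = 0 := by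
          rw [← h3]
          apply Finset.sum_congr rfl
          intro j _
          rw [hpdiff]
        have h5 : ∑ j, x j * g' j ⟨i, hii, hi⟩ =
            ∑ j, x j * g j i - V i / V i0 * ∑ j, x j * g j i0 := by
          rw [Finset.mul_sum, ← Finset.sum_sub_distrib]
          apply Finset.sum_congr rfl
          intro j _
          simp only [hg']
          ring
        rw [h5, f0] at h4
        have h6 : V i / V i0 * (lam * V i0) = lam * V i := by field_simp
        rw [h6] at h4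
        linarith
    have hgsum : ∀ j, ∑ i, g j i = 0 := by
      intro j
      simp only [hg]
      rw [Finset.sum_sub_distrib, Finset.sum_ite_eq, Finset.sum_ite_eq]
      simp
    have hVsum : ∑ i, V i = 0 := by
      simp only [hV]
      rw [Finset.sum_comm]
      simp [hgsum]
    intro i
    by_cases hi : i = i1
    · rw [hi]
      have h3 : ∑ i, ∑ j, x j * g j i = 0 := by
        rw [Finset.sum_comm]
        apply Finset.sum_eq_zero
        intro j _
        rw [← Finset.mul_sum, hgsum, mul_zero]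
      have h4 : ∑ i, (∑ j, x j * g j i - lam * V i) = 0 := by
        rw [Finset.sum_sub_distrib, h3, ← Finset.mul_sum, hVsum]
        ring
      rw [Finset.sum_eq_single i1 (fun i _ hne => by rw [f1 i hne]; ring)
        (fun h => absurd (mem_univ _) h)] at h4
      linarith
    · exact f1 i hi

theorem main (hB : CubeFixed) : ∀ h : ℕ, 3 ≤ h → ∀ ℓ : ℕ, 1 ≤ ℓ → ∀ c : ℕ → Fin h,
    ∀ k : Fin h → ℤ,
    (∃ lam : ℝ, 0 ≤ lam ∧ lam ≤ 1 ∧
      ∀ i, (k i : ℝ) = lam * cvec c (M0 ℓ) i + (1 - lam) * cvec c (M1 ℓ) i) →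
    ∃ M : Finset ℕ, IsMatching ℓ M ∧ (ℓ:ℤ) - h + 2 ≤ M.card ∧
      (∀ i, (cvec c M i : ℤ) ≤ k i) ∧ ∑ i, |(cvec c M i : ℤ) - k i| ≤ (h:ℤ) - 2 := by
  intro h hh ℓ hℓ c k ⟨lam, h0, h1, hk⟩
  have : NeZero ℓ := ⟨by omega⟩
  obtain ⟨x, D, e1, e2, e3, e4, e5⟩ := fractional hB hh (fun j : Fin ℓ => c (2 * (j:ℕ) + 2))
    (fun j : Fin ℓ => c (2 * (j:ℕ) + 1)) lam h0 h1
  refine assemble c k x e1 e2 D e3 e4 ?_
  intro i
  have i0 : Function.Injective (fun j : Fin ℓ => 2 * (j:ℕ) + 2) := by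
    intro j j' h
    have : 2 * (j:ℕ) + 2 = 2 * (j':ℕ) + 2 := h
    exact Fin.ext (by omega)
  have i1 : Function.Injective (fun j : Fin ℓ => 2 * (j:ℕ) + 1) := by
    intro j j' h
    have : 2 * (j:ℕ) + 1 = 2 * (j':ℕ) + 1 := h
    exact Fin.ext (by omega)
  rw [e5, hk, M0_eq, M1_eq, cvec_image c univ _ i0 i, cvec_image c univ _ i1 i]

end MP_476501_co
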