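import Pool.Agent.Work.MP_476501_co.Main1

/-!
# MP_476501_co : general position and passage to the limit
-/

set_option autoImplicit false

namespace MP_476501_co

open MeasureTheory Set Filter Topology Polynomial

variable {N : ℕ} {ι : Type*} [Fintype ι]

/-- points in general position near given points -/
theorem genpos (p : Fin N → ι → ℝ) (η : ℝ) (hη : 0 < η) :
    ∃ q : Fin N → ι → ℝ, (∀ c i, |q c i - p c i| ≤ η) ∧
      ∀ b : ι → ℝ, b ≠ 0 → ∀ v : ℝ,
        (Finset.univ.filter (fun j : Fin N => hgt q b j = v)).card ≤ Fintype.card ι := by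
  classical
  set n := Fintype.card ι with hn
  let e : ι ≃ Fin n := Fintype.equivFin ι
  -- polynomial matrices
  let M : (Fin (n + 1) → Fin N) → Matrix (Fin (n + 1)) (Fin (n + 1)) ℝ[X] := fun J =>
    Matrix.of (fun r k => Fin.cases (1 : ℝ[X])
      (fun k' => C (((J r : ℕ) : ℝ) ^ ((k' : ℕ) + 1)) + (Polynomial.X : ℝ[X]) * C (p (J r) (e.symm k'))) k)
  have hne : ∀ J : Fin (n + 1) → Fin N, Function.Injective J → (M J).det ≠ 0 := by
    intro J hJ h0
    have h1 : ((evalRingHom (0:ℝ)).mapMatrix (M J)).det = 0 := by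
      rw [← RingHom.map_det, h0, map_zero]
    have h2 : (evalRingHom (0:ℝ)).mapMatrix (M J) =
        Matrix.vandermonde (fun r => ((J r : ℕ) : ℝ)) := by
      ext r k
      rw [RingHom.mapMatrix_apply, Matrix.map_apply, Matrix.vandermonde_apply]
      refine Fin.cases ?_ (fun k' => ?_) k
      · simp [M]
      · simp [M]
    rw [h2, Matrix.det_vandermonde_eq_zero_iff] at h1
    obtain ⟨i, j, hij, hne⟩ := h1
    apply hne
    apply hJ
    apply Fin.ext
    exact_mod_cast hij
  -- a large number that is not a root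
  set Q : ℝ[X] := ∏ J : Fin (n + 1) → Fin N, (if Function.Injective J then (M J).det else 1) with hQ
  have hQne : Q ≠ 0 := by
    rw [hQ, Finset.prod_ne_zero_iff]
    intro J _
    split_ifs with h
    · exact hne J h
    · exact one_ne_zero
  set B : ℝ := (N:ℝ) ^ (n + 1) + 1 with hBdef
  have hB0 : 0 < B := by positivity
  obtain ⟨s, hs1, hs2⟩ : ∃ s : ℝ, B / η < s ∧ Q.eval s ≠ 0 := by
    have hfin : (Q.roots.toFinset : Set ℝ).Finite := Finset.finite_toSet _
    have hinf : (Set.Ioi (B / η)).Infinite := Set.Ioi_infinite _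
    obtain ⟨s, hs, hs'⟩ := hinf.exists_notMem_finite hfin
    refine ⟨s, hs, ?_⟩
    intro h
    apply hs'
    rw [Finset.mem_coe, Multiset.mem_toFinset, mem_roots hQne]
    exact h
  have hspos : 0 < s := lt_trans (div_pos hB0 hη) hs1
  set q : Fin N → ι → ℝ := fun c i => p c i + (((c : ℕ) : ℝ) ^ ((e i : ℕ) + 1)) / s with hq
  refine ⟨q, ?_, ?_⟩
  · intro c i
    have h1 : q c i - p c i = (((c : ℕ) : ℝ) ^ ((e i : ℕ) + 1)) / s := by
      simp only [hq]; ring
    rw [h1, abs_of_nonneg (by positivity), div_le_iff₀ hspos]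
    have h2 : ((c : ℕ) : ℝ) ^ ((e i : ℕ) + 1) ≤ B := by
      have hcN : ((c : ℕ) : ℝ) ≤ N := by exact_mod_cast c.2.le
      have hN1 : (1:ℝ) ≤ N := by
        have : 0 < N := lt_of_le_of_lt (Nat.zero_le _) c.2
        exact_mod_cast this
      calc ((c : ℕ) : ℝ) ^ ((e i : ℕ) + 1) ≤ (N:ℝ) ^ ((e i : ℕ) + 1) :=
            pow_le_pow_left₀ (Nat.cast_nonneg _) hcN _
        _ ≤ (N:ℝ) ^ (n + 1) := pow_le_pow_right₀ hN1 (by have := (e i).2; omega)
        _ ≤ B := by rw [hBdef]; linarith
    have h3 : B < η * s := by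
      rw [div_lt_iff₀ hη] at hs1
      linarith
    linarith
  · intro b hb v
    by_contra hcon
    push Not at hcon
    obtain ⟨T, hTsub, hTcard⟩ := Finset.exists_subset_card_eq hcon
    let eJ : Fin (n + 1) ≃ T := (Fintype.equivFinOfCardEq (by rw [Fintype.card_coe]; exact hTcard)).symm
    let J : Fin (n + 1) → Fin N := fun r => (eJ r).1
    have hJinj : Function.Injective J := fun r r' h => eJ.injective (Subtype.ext h)
    have hJv : ∀ r, hgt q b (J r) = v := by
      intro r
      have := hTsub (eJ r).2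
      rw [Finset.mem_filter] at this
      exact this.2
    -- the determinant at s is nonzero
    have hdet : ((evalRingHom s).mapMatrix (M J)).det ≠ 0 := by
      rw [← RingHom.map_det]
      intro h0
      apply hs2
      rw [hQ, eval_prod]
      apply Finset.prod_eq_zero (Finset.mem_univ J)
      rw [if_pos hJinj]
      exact h0
    apply hdet
    rw [← Matrix.exists_mulVec_eq_zero_iff]
    refine ⟨Fin.cases (-(v * s)) (fun k' => b (e.symm k')), ?_, ?_⟩
    · intro h0
      apply hb
      ext i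
      have := congrFun h0 (Fin.succ (e i))
      simpa using this
    · ext r
      rw [Matrix.mulVec, dotProduct, Fin.sum_univ_succ]
      simp only [RingHom.mapMatrix_apply, Matrix.map_apply, M, Matrix.of_apply, Fin.cases_zero,
        Fin.cases_succ, map_one, one_mul, Pi.zero_apply]
      have h1 : ∀ k' : Fin n, (evalRingHom s) (C (((J r : ℕ) : ℝ) ^ ((k' : ℕ) + 1)) +
          (Polynomial.X : ℝ[X]) * C (p (J r) (e.symm k'))) * b (e.symm k') = s * (q (J r) (e.symm k') * b (e.symm k')) := by
        intro k'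
        simp only [hq, coe_evalRingHom, eval_add, eval_mul, eval_X, eval_C, Equiv.apply_symm_apply]
        field_simp
        ring
      rw [Finset.sum_congr rfl (fun k' _ => h1 k'), ← Finset.mul_sum]
      have h2 : ∑ k' : Fin n, q (J r) (e.symm k') * b (e.symm k') = v := by
        rw [← hJv r]
        unfold hgt
        exact Equiv.sum_comp e.symm (fun i => q (J r) i * b i)
      rw [h2]
      ring

/-- a uniform gap -/
theorem gap [NeZero N] (q : Fin N → ι → ℝ) (hq : ∀ b : ι → ℝ, b ≠ 0 → ∀ v : ℝ,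
        (Finset.univ.filter (fun j : Fin N => hgt q b j = v)).card ≤ Fintype.card ι) :
    ∃ ε0 : ℝ, 0 < ε0 ∧ ∀ ε, ε ≤ ε0 → ∀ b : ι → ℝ, 1 / 2 ≤ ‖b‖ → ‖b‖ ≤ 1 →
      (Finset.univ.filter (fun j : Fin N => ∀ j', hgt q b j < hgt q b j' + ε)).card
        ≤ Fintype.card ι := by
  classical
  set K : Set (ι → ℝ) := {b | 1 / 2 ≤ ‖b‖ ∧ ‖b‖ ≤ 1} with hK
  have hKc : IsCompact K := by
    have h1 : K = Metric.closedBall 0 1 ∩ {b | 1 / 2 ≤ ‖b‖} := by
      ext b
      simp only [hK, mem_ofPred_eq, mem_inter_iff, Metric.mem_closedBall, dist_zero_right]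
      exact and_comm
    rw [h1]
    exact (isCompact_closedBall _ _).inter_right (isClosed_le continuous_const continuous_norm)
  have hgapJ : ∀ T : Finset (Fin N), ∃ δ : ℝ, 0 < δ ∧ (Fintype.card ι < T.card → ∀ b ∈ K,
      ∃ j ∈ T, ∃ j' ∈ T, δ ≤ |hgt q b j - hgt q b j'|) := by
    intro T
    by_cases hT : Fintype.card ι < T.card
    · have hTne : T.Nonempty := Finset.card_pos.mp (by omega)
      rcases K.eq_empty_or_nonempty with hKe | hKne
      · refine ⟨1, one_pos, fun _ b hb => ?_⟩
        rw [hKe] at hb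
        exact absurd hb (by simp)
      · have hcont : Continuous (fun b => ∑ j ∈ T, ∑ j' ∈ T, |hgt q b j - hgt q b j'|) := by
          apply continuous_finsetSum
          intro j _
          apply continuous_finsetSum
          intro j' _
          exact ((continuous_hgt q j).sub (continuous_hgt q j')).abs
        obtain ⟨b0, hb0, hmin⟩ := hKc.exists_isMinOn hKne hcont.continuousOn
        set m := ∑ j ∈ T, ∑ j' ∈ T, |hgt q b0 j - hgt q b0 j'| with hm
        have hmpos : 0 < m := by
          by_contra hcon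
          push Not at hcon
          have hm0 : m = 0 := le_antisymm hcon
            (Finset.sum_nonneg (fun j _ => Finset.sum_nonneg (fun j' _ => abs_nonneg _)))
          obtain ⟨j0, hj0⟩ := hTne
          have h1 := (Finset.sum_eq_zero_iff_of_nonneg
            (fun j _ => Finset.sum_nonneg (fun j' _ => abs_nonneg _))).mp hm0 j0 hj0
          have h2 : ∀ j' ∈ T, hgt q b0 j' = hgt q b0 j0 := by
            intro j' hj'
            have := (Finset.sum_eq_zero_iff_of_nonneg (fun j' _ => abs_nonneg _)).mp h1 j' hj'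
            rw [abs_eq_zero] at this
            linarith
          have hb0ne : b0 ≠ 0 := by
            intro h
            have := hb0.1
            rw [h, norm_zero] at this
            norm_num at this
          have h3 := hq b0 hb0ne (hgt q b0 j0)
          have h4 : T ⊆ Finset.univ.filter (fun j : Fin N => hgt q b0 j = hgt q b0 j0) := by
            intro j' hj'
            rw [Finset.mem_filter]
            exact ⟨Finset.mem_univ _, h2 j' hj'⟩
          have := Finset.card_le_card h4
          omega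
        refine ⟨m / (T.card * T.card + 1), by positivity, fun _ b hb => ?_⟩
        by_contra hcon
        push Not at hcon
        have hle : ∑ j ∈ T, ∑ j' ∈ T, |hgt q b j - hgt q b j'| ≤
            T.card * T.card * (m / (T.card * T.card + 1)) := by
          calc ∑ j ∈ T, ∑ j' ∈ T, |hgt q b j - hgt q b j'|
              ≤ ∑ _j ∈ T, ∑ _j' ∈ T, m / (T.card * T.card + 1) :=
                Finset.sum_le_sum (fun j hj => Finset.sum_le_sum (fun j' hj' => (hcon j hj j' hj').le))
            _ = T.card * T.card * (m / (T.card * T.card + 1)) := by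
                simp only [Finset.sum_const, nsmul_eq_mul]
                ring
        have hge : m ≤ ∑ j ∈ T, ∑ j' ∈ T, |hgt q b j - hgt q b j'| := hmin hb
        have hlt : (T.card * T.card : ℝ) * (m / (T.card * T.card + 1)) < m := by
          have hpos : (0:ℝ) < T.card * T.card + 1 := by positivity
          rw [mul_div_assoc', div_lt_iff₀ hpos]
          nlinarith
        linarith
    · exact ⟨1, one_pos, fun h => absurd h hT⟩
  choose δ hδpos hδ using hgapJ
  set ε0 : ℝ := (Finset.univ : Finset (Finset (Fin N))).inf' ⟨∅, Finset.mem_univ _⟩ δ with hε0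
  refine ⟨ε0, ?_, ?_⟩
  · rw [hε0, Finset.lt_inf'_iff]
    intro T _
    exact hδpos T
  · intro ε hε b hb1 hb2
    by_contra hcon
    push Not at hcon
    set T := Finset.univ.filter (fun j : Fin N => ∀ j', hgt q b j < hgt q b j' + ε) with hT
    obtain ⟨j, hj, j', hj', h⟩ := hδ T hcon b ⟨hb1, hb2⟩
    have h1 : ε ≤ δ T := hε.trans (Finset.inf'_le _ (Finset.mem_univ T))
    rw [hT, Finset.mem_filter] at hj hj'
    have h2 := hj.2 j'
    have h3 := hj'.2 j
    have h4 : |hgt q b j - hgt q b j'| < ε := by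
      rw [abs_lt]
      constructor <;> linarith
    linarith

/-- exact division by arcs -/
theorem arcs_exact (hB : CubeFixed) [NeZero N] [Nonempty ι] (p : Fin N → ι → ℝ) (g0 : Fin N → ℝ)
    (hg0 : ∑ c, g0 c = 1) (lam : ℝ) (h0 : 0 < lam) (h1 : lam < 1) :
    ∃ a l : ι → ℝ, (∀ i, l i ≤ 1) ∧
      (∑ c : Fin N, X N a l ((c:ℕ):ℤ) * g0 c = lam) ∧
      ∀ i, ∑ c : Fin N, X N a l ((c:ℕ):ℤ) * (p (c + 1) i - p c i) = 0 := by
  classical
  have hN : 0 < N := Nat.pos_of_ne_zero (NeZero.ne N)
  have hN' : (0:ℝ) < N := by exact_mod_cast hN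
  set Φ : (ι → ℝ) × (ι → ℝ) → ℝ := fun z =>
    |∑ c : Fin N, MP_476501_co.X N z.1 z.2 ((c:ℕ):ℤ) * g0 c - lam| +
    ∑ i, |∑ c : Fin N, MP_476501_co.X N z.1 z.2 ((c:ℕ):ℤ) * (p (c + 1) i - p c i)| with hΦ
  have hΦc : Continuous Φ := by
    apply Continuous.add
    · apply Continuous.abs
      exact (continuous_finsetSum _ (fun c _ => (continuous_X _).mul continuous_const)).sub
        continuous_const
    · apply continuous_finsetSum
      intro i _
      apply Continuous.abs
      exact continuous_finsetSum _ (fun c _ => (continuous_X _).mul continuous_const)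
  set K : Set ((ι → ℝ) × (ι → ℝ)) := Icc 0 1 ×ˢ Icc 0 1 with hK
  have hKc : IsCompact K := isCompact_Icc.prod isCompact_Icc
  have hKne : K.Nonempty := ⟨(0, 0), ⟨⟨le_rfl, zero_le_one⟩, ⟨le_rfl, zero_le_one⟩⟩⟩
  obtain ⟨z0, hz0, hmin⟩ := hKc.exists_isMinOn hKne hΦc.continuousOn
  have hsmall : ∀ η : ℝ, 0 < η → Φ z0 ≤ η := by
    intro η hη
    set Cst : ℝ := Fintype.card ι * (3 * N + 1) + 1 with hCst
    have hCpos : 0 < Cst := by positivity
    obtain ⟨q, hq1, hq2⟩ := genpos p (η / Cst) (div_pos hη hCpos)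
    obtain ⟨ε0, hε0, hgap⟩ := gap q hq2
    set ε := min ε0 (η / Cst) with hε
    have hεpos : 0 < ε := lt_min hε0 (div_pos hη hCpos)
    obtain ⟨a, l, ha, hl, e1, e2⟩ := approx1 hB q g0 hg0 lam h0 h1 ε hεpos
      (hgap ε (min_le_left _ _))
    have hmem : (a, l) ∈ K := by
      refine ⟨⟨fun i => (ha i).1, fun i => (ha i).2⟩, ⟨fun i => (hl i).1, fun i => (hl i).2⟩⟩
    have hle : Φ z0 ≤ Φ (a, l) := hmin hmem
    refine hle.trans ?_
    have e3 : ∀ i, |∑ c : Fin N, MP_476501_co.X N a l ((c:ℕ):ℤ) * (p (c + 1) i - p c i)| ≤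
        (3 * N + 1) * (η / Cst) := by
      intro i
      have hsplit : ∑ c : Fin N, MP_476501_co.X N a l ((c:ℕ):ℤ) * (p (c + 1) i - p c i) =
          ∑ c : Fin N, MP_476501_co.X N a l ((c:ℕ):ℤ) * (q (c + 1) i - q c i) -
          ∑ c : Fin N, MP_476501_co.X N a l ((c:ℕ):ℤ) *
            ((q (c + 1) i - p (c + 1) i) - (q c i - p c i)) := by
        rw [← Finset.sum_sub_distrib]
        apply Finset.sum_congr rfl
        intro c _
        ring
      rw [hsplit]
      have h2 : |∑ c : Fin N, MP_476501_co.X N a l ((c:ℕ):ℤ) *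
            ((q (c + 1) i - p (c + 1) i) - (q c i - p c i))| ≤ N * (2 * (η / Cst)) := by
        calc _ ≤ ∑ c : Fin N, |MP_476501_co.X N a l ((c:ℕ):ℤ) *
              ((q (c + 1) i - p (c + 1) i) - (q c i - p c i))| := Finset.abs_sum_le_sum_abs _ _
          _ ≤ ∑ _c : Fin N, 2 * (η / Cst) := by
              apply Finset.sum_le_sum
              intro c _
              rw [abs_mul, abs_of_nonneg (X_nonneg hN a l _)]
              have h3 := X_le_one hN a l ((c:ℕ):ℤ)
              have h4 := X_nonneg hN a l ((c:ℕ):ℤ)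
              have h5 := abs_sub (q (c + 1) i - p (c + 1) i) (q c i - p c i)
              have h6 := hq1 (c + 1) i
              have h7 := hq1 c i
              have h8 : |(q (c + 1) i - p (c + 1) i) - (q c i - p c i)| ≤ 2 * (η / Cst) := by
                linarith
              calc _ ≤ 1 * |(q (c + 1) i - p (c + 1) i) - (q c i - p c i)| :=
                    mul_le_mul_of_nonneg_right h3 (abs_nonneg _)
                _ ≤ 2 * (η / Cst) := by linarith
          _ = N * (2 * (η / Cst)) := by simp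
      have h9 := e2 i
      have h10 : (N + 1 : ℝ) * ε ≤ (N + 1) * (η / Cst) :=
        mul_le_mul_of_nonneg_left (min_le_right _ _) (by positivity)
      calc _ ≤ |∑ c : Fin N, MP_476501_co.X N a l ((c:ℕ):ℤ) * (q (c + 1) i - q c i)| +
            |∑ c : Fin N, MP_476501_co.X N a l ((c:ℕ):ℤ) *
            ((q (c + 1) i - p (c + 1) i) - (q c i - p c i))| := abs_sub _ _
        _ ≤ (N + 1) * (η / Cst) + N * (2 * (η / Cst)) := add_le_add (h9.trans h10) h2
        _ = (3 * N + 1) * (η / Cst) := by ring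
    show |∑ c : Fin N, MP_476501_co.X N a l ((c:ℕ):ℤ) * g0 c - lam| +
      ∑ i, |∑ c : Fin N, MP_476501_co.X N a l ((c:ℕ):ℤ) * (p (c + 1) i - p c i)| ≤ η
    rw [e1, sub_self, abs_zero, zero_add]
    calc _ ≤ ∑ _i : ι, (3 * (N:ℝ) + 1) * (η / Cst) := Finset.sum_le_sum (fun i _ => e3 i)
      _ = (Fintype.card ι * (3 * N + 1)) * (η / Cst) := by
          rw [Finset.sum_const, nsmul_eq_mul, Finset.card_univ]; ring
      _ ≤ Cst * (η / Cst) := by
          apply mul_le_mul_of_nonneg_right _ (div_pos hη hCpos).le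
          rw [hCst]; linarith
      _ = η := by field_simp
  have hΦ0 : Φ z0 = 0 := by
    apply le_antisymm
    · exact le_of_forall_pos_le_add (fun η hη => by rw [zero_add]; exact hsmall η hη)
    · exact add_nonneg (abs_nonneg _) (Finset.sum_nonneg (fun i _ => abs_nonneg _))
  have hs1 : 0 ≤ ∑ i, |∑ c : Fin N, MP_476501_co.X N z0.1 z0.2 ((c:ℕ):ℤ) *
      (p (c + 1) i - p c i)| := Finset.sum_nonneg (fun i _ => abs_nonneg _)
  have hs2 : 0 ≤ |∑ c : Fin N, MP_476501_co.X N z0.1 z0.2 ((c:ℕ):ℤ) * g0 c - lam| := abs_nonneg _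
  have hΦ0' : |∑ c : Fin N, MP_476501_co.X N z0.1 z0.2 ((c:ℕ):ℤ) * g0 c - lam| +
    ∑ i, |∑ c : Fin N, MP_476501_co.X N z0.1 z0.2 ((c:ℕ):ℤ) * (p (c + 1) i - p c i)| = 0 := hΦ0
  refine ⟨z0.1, z0.2, fun i => hz0.2.2 i, ?_, ?_⟩
  · have : |∑ c : Fin N, MP_476501_co.X N z0.1 z0.2 ((c:ℕ):ℤ) * g0 c - lam| = 0 := by linarith
    rw [abs_eq_zero] at this
    linarith
  · intro i
    have h2 : ∑ i, |∑ c : Fin N, MP_476501_co.X N z0.1 z0.2 ((c:ℕ):ℤ) *
      (p (c + 1) i - p c i)| = 0 := by linarith
    have h3 := (Finset.sum_eq_zero_iff_of_nonneg (fun i _ => abs_nonneg _)).mp h2 i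
      (Finset.mem_univ i)
    rwa [abs_eq_zero] at h3

end MP_476501_co
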