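import Mathlib

/-!
# MP_476501_co : a zero of a vector field on a box, from the fixed point theorem
-/

set_option autoImplicit false

namespace MP_476501_co

open Set

/-- the fixed point property of all cubes -/
def CubeFixed : Prop := ∀ (n : ℕ) (f : (Fin n → ℝ) → (Fin n → ℝ)),
  ContinuousOn f (Set.Icc 0 1) → Set.MapsTo f (Set.Icc 0 1) (Set.Icc 0 1) →
    ∃ x ∈ Set.Icc (0 : Fin n → ℝ) 1, f x = x

theorem zero_exists (hB : CubeFixed) {κ : Type*} [Fintype κ] (H : (κ → ℝ) → (κ → ℝ))
    (lo hi : κ → ℝ) (hlo : ∀ i, lo i < hi i) (hH : Continuous H) :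
    ∃ x ∈ Icc lo hi, ∀ i, H x i = 0 ∨ (x i = lo i ∧ 0 ≤ H x i) ∨ (x i = hi i ∧ H x i ≤ 0) := by
  classical
  set n := Fintype.card κ with hn
  let e : κ ≃ Fin n := Fintype.equivFin κ
  -- from the unit cube to the box
  let φ : (Fin n → ℝ) → (κ → ℝ) := fun u i => lo i + u (e i) * (hi i - lo i)
  -- clamped map
  let T : (κ → ℝ) → (κ → ℝ) := fun x i => max (lo i) (min (hi i) (x i - H x i))
  let f : (Fin n → ℝ) → (Fin n → ℝ) := fun u j =>
    (T (φ u) (e.symm j) - lo (e.symm j)) / (hi (e.symm j) - lo (e.symm j))
  have hpos : ∀ i, 0 < hi i - lo i := fun i => sub_pos.mpr (hlo i)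
  have hφ : Continuous φ := by
    apply continuous_pi
    intro i
    show Continuous (fun u : Fin n → ℝ => lo i + u (e i) * (hi i - lo i))
    fun_prop
  have hT : Continuous T := by
    apply continuous_pi
    intro i
    show Continuous (fun x : κ → ℝ => max (lo i) (min (hi i) (x i - H x i)))
    have : Continuous (fun x => H x i) := (continuous_apply i).comp hH
    fun_prop
  have hf : Continuous f := by
    apply continuous_pi
    intro j
    show Continuous (fun u => (T (φ u) (e.symm j) - lo (e.symm j)) / (hi (e.symm j) - lo (e.symm j)))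
    have : Continuous (fun u => T (φ u) (e.symm j)) :=
      (continuous_apply (e.symm j)).comp (hT.comp hφ)
    exact (this.sub continuous_const).div_const _
  have hmap : MapsTo f (Icc 0 1) (Icc 0 1) := by
    intro u _
    constructor
    · intro j
      show 0 ≤ (T (φ u) (e.symm j) - lo (e.symm j)) / (hi (e.symm j) - lo (e.symm j))
      apply div_nonneg _ (hpos _).le
      show 0 ≤ max (lo (e.symm j)) _ - lo (e.symm j)
      linarith [le_max_left (lo (e.symm j)) (min (hi (e.symm j)) (φ u (e.symm j) - H (φ u) (e.symm j)))]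
    · intro j
      show (T (φ u) (e.symm j) - lo (e.symm j)) / (hi (e.symm j) - lo (e.symm j)) ≤ 1
      rw [div_le_one (hpos _)]
      show max (lo (e.symm j)) (min (hi (e.symm j)) (φ u (e.symm j) - H (φ u) (e.symm j)))
        - lo (e.symm j) ≤ _
      have : max (lo (e.symm j)) (min (hi (e.symm j)) (φ u (e.symm j) - H (φ u) (e.symm j))) ≤
          hi (e.symm j) := max_le (hlo _).le (min_le_left _ _)
      linarith
  obtain ⟨u, hu, hfu⟩ := hB n f hf.continuousOn hmap
  have hfix : T (φ u) = φ u := by
    ext i
    have h1 := congrFun hfu (e i)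
    have h2 : (T (φ u) i - lo i) / (hi i - lo i) = u (e i) := by
      have : f u (e i) = (T (φ u) (e.symm (e i)) - lo (e.symm (e i))) /
        (hi (e.symm (e i)) - lo (e.symm (e i))) := rfl
      rw [Equiv.symm_apply_apply] at this
      rw [← this]; exact h1
    have h3 : T (φ u) i - lo i = u (e i) * (hi i - lo i) := by
      rw [div_eq_iff (hpos i).ne'] at h2
      exact h2
    show T (φ u) i = lo i + u (e i) * (hi i - lo i)
    linarith
  refine ⟨φ u, ⟨?_, ?_⟩, ?_⟩
  · intro i
    show lo i ≤ lo i + u (e i) * (hi i - lo i)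
    have := mul_nonneg (hu.1 (e i)) (hpos i).le
    simp only [Pi.zero_apply] at this
    linarith
  · intro i
    show lo i + u (e i) * (hi i - lo i) ≤ hi i
    have h1 : u (e i) ≤ 1 := hu.2 (e i)
    have := mul_le_mul_of_nonneg_right h1 (hpos i).le
    linarith
  · intro i
    set x := φ u with hx
    have h1 : max (lo i) (min (hi i) (x i - H x i)) = x i := congrFun hfix i
    rcases lt_trichotomy (H x i) 0 with h | h | h
    · right; right
      refine ⟨?_, h.le⟩
      have h2 : x i < x i - H x i := by linarith
      rcases le_total (hi i) (x i - H x i) with h3 | h3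
      · rw [min_eq_left h3, max_eq_right (hlo i).le] at h1
        exact h1.symm
      · rw [min_eq_right h3] at h1
        have := le_max_right (lo i) (x i - H x i)
        rw [h1] at this
        linarith
    · exact Or.inl h
    · right; left
      refine ⟨?_, h.le⟩
      rcases le_total (min (hi i) (x i - H x i)) (lo i) with h3 | h3
      · rw [max_eq_left h3] at h1
        exact h1.symm
      · rw [max_eq_right h3] at h1
        have := min_le_right (hi i) (x i - H x i)
        rw [h1] at this
        linarith

end MP_476501_co
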