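import Pool.Agent.Work.MP_476501_co.Abel
import Pool.Agent.Work.MP_476501_co.Zero

/-!
# MP_476501_co : approximate division for points in general position
-/

set_option autoImplicit false

namespace MP_476501_co

open MeasureTheory Set Filter Topology

variable {N : ℕ} {ι : Type*} [Fintype ι]

/-- the height function -/
noncomputable def hgt (p : Fin N → ι → ℝ) (b : ι → ℝ) (j : Fin N) : ℝ := ∑ i, p j i * b i

/-- its minimum -/
noncomputable def mn [NeZero N] (p : Fin N → ι → ℝ) (b : ι → ℝ) : ℝ :=
  (Finset.univ : Finset (Fin N)).inf' ⟨0, Finset.mem_univ _⟩ (hgt p b)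

lemma mn_le [NeZero N] (p : Fin N → ι → ℝ) (b : ι → ℝ) (j : Fin N) : mn p b ≤ hgt p b j :=
  Finset.inf'_le _ (Finset.mem_univ j)

lemma exists_mn [NeZero N] (p : Fin N → ι → ℝ) (b : ι → ℝ) : ∃ j, hgt p b j = mn p b := by
  obtain ⟨j, _, hj⟩ := Finset.exists_mem_eq_inf' (s := (Finset.univ : Finset (Fin N)))
    ⟨0, Finset.mem_univ _⟩ (hgt p b)
  exact ⟨j, hj.symm⟩

lemma continuous_hgt (p : Fin N → ι → ℝ) (j : Fin N) : Continuous (fun b => hgt p b j) := by
  unfold hgt
  fun_prop

lemma continuous_mn [NeZero N] (p : Fin N → ι → ℝ) : Continuous (mn p) := by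
  unfold mn
  exact Continuous.finset_inf'_apply _ (fun j _ => continuous_hgt p j)

/-- the weights -/
noncomputable def wgt [NeZero N] (p : Fin N → ι → ℝ) (ε : ℝ) (b : ι → ℝ) (j : Fin N) : ℝ :=
  max 0 (ε - (hgt p b j - mn p b))

lemma wgt_nonneg [NeZero N] (p : Fin N → ι → ℝ) (ε : ℝ) (b : ι → ℝ) (j : Fin N) :
    0 ≤ wgt p ε b j := le_max_left _ _

lemma wgt_le [NeZero N] (p : Fin N → ι → ℝ) {ε : ℝ} (hε : 0 ≤ ε) (b : ι → ℝ) (j : Fin N) :
    wgt p ε b j ≤ ε := by
  unfold wgt
  apply max_le hε
  linarith [mn_le p b j]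

theorem approx1 (hB : CubeFixed) [NeZero N] [Nonempty ι] (p : Fin N → ι → ℝ) (g0 : Fin N → ℝ)
    (hg0 : ∑ c, g0 c = 1) (lam : ℝ) (h0 : 0 < lam) (h1 : lam < 1) (ε : ℝ) (hε : 0 < ε)
    (hact : ∀ b : ι → ℝ, 1 / 2 ≤ ‖b‖ → ‖b‖ ≤ 1 →
      (Finset.univ.filter (fun j : Fin N => ∀ j', hgt p b j < hgt p b j' + ε)).card
        ≤ Fintype.card ι) :
    ∃ a l : ι → ℝ, (∀ i, a i ∈ Icc (0:ℝ) 1) ∧ (∀ i, l i ∈ Icc (0:ℝ) 1) ∧
      (∑ c : Fin N, X N a l ((c:ℕ):ℤ) * g0 c = lam) ∧
      ∀ i, |∑ c : Fin N, X N a l ((c:ℕ):ℤ) * (p (c + 1) i - p c i)| ≤ (N + 1) * ε := by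
  classical
  have hN : 0 < N := Nat.pos_of_ne_zero (NeZero.ne N)
  have hN' : (0:ℝ) < N := by exact_mod_cast hN
  -- parameters
  set bb : (Option ι → ℝ) → (ι → ℝ) := fun x i => x (some i) with hbb
  set A : (Option ι → ℝ) → (Fin N → ℝ) := fun x j => max 0 (2 * ‖bb x‖ - 1) * (((j:ℕ):ℝ) / N)
    with hA
  set L : (Option ι → ℝ) → (Fin N → ℝ) := fun x j => x none * wgt p ε (bb x) j / ε with hL
  have hbbc : Continuous bb := by
    apply continuous_pi
    intro i
    exact continuous_apply (some i)
  have hAc : Continuous A := by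
    apply continuous_pi
    intro j
    show Continuous (fun x => max 0 (2 * ‖bb x‖ - 1) * (((j:ℕ):ℝ) / N))
    have : Continuous (fun x => ‖bb x‖) := hbbc.norm
    fun_prop
  have hLc : Continuous L := by
    apply continuous_pi
    intro j
    show Continuous (fun x : Option ι → ℝ => x none * wgt p ε (bb x) j / ε)
    have e1 : Continuous (fun x => hgt p (bb x) j) := (continuous_hgt p j).comp hbbc
    have e2 : Continuous (fun x => mn p (bb x)) := (continuous_mn p).comp hbbc
    unfold wgt
    fun_prop
  set Y : (Option ι → ℝ) → Fin N → ℝ := fun x c => X N (A x) (L x) ((c:ℕ):ℤ) with hY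
  have hYc : ∀ c, Continuous (fun x => Y x c) := by
    intro c
    exact (continuous_X (N := N) (ι := Fin N) ((c:ℕ):ℤ)).comp (hAc.prodMk hLc)
  set H : (Option ι → ℝ) → (Option ι → ℝ) := fun x o => match o with
    | none => ∑ c, Y x c * g0 c - lam
    | some i => ∑ c, Y x c * (p (c + 1) i - p c i) + (N + 1) * ε * x (some i) with hH
  have hHc : Continuous H := by
    apply continuous_pi
    intro o
    rcases o with _ | i
    · show Continuous (fun x => ∑ c, Y x c * g0 c - lam)
      exact (continuous_finsetSum _ (fun c _ => (hYc c).mul continuous_const)).sub continuous_const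
    · show Continuous (fun x : Option ι → ℝ =>
        ∑ c, Y x c * (p (c + 1) i - p c i) + (N + 1) * ε * x (some i))
      exact (continuous_finsetSum _ (fun c _ => (hYc c).mul continuous_const)).add
        (continuous_const.mul (continuous_apply (some i)))
  set lo : Option ι → ℝ := fun o => match o with
    | none => 0
    | some _ => -1 with hlo
  set hi : Option ι → ℝ := fun _ => 1 with hhi
  obtain ⟨x, hx, hz⟩ := zero_exists hB H lo hi (by
    intro o
    rcases o with _ | i
    · show (0:ℝ) < 1; norm_num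
    · show (-1:ℝ) < 1; norm_num) hHc
  have hx0 : ∀ o, lo o ≤ x o := fun o => hx.1 o
  have hx1 : ∀ o, x o ≤ hi o := fun o => hx.2 o
  have ht0 : 0 ≤ x none := hx0 none
  have ht1 : x none ≤ 1 := hx1 none
  have hb0 : ∀ i, -1 ≤ x (some i) := fun i => hx0 (some i)
  have hb1 : ∀ i, x (some i) ≤ 1 := fun i => hx1 (some i)
  have hbnorm : ‖bb x‖ ≤ 1 := by
    rw [pi_norm_le_iff_of_nonneg zero_le_one]
    intro i
    rw [Real.norm_eq_abs, abs_le]
    exact ⟨hb0 i, hb1 i⟩
  have hLnn : ∀ j, 0 ≤ L x j := fun j =>
    div_nonneg (mul_nonneg ht0 (wgt_nonneg _ _ _ _)) hε.le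
  have hLle : ∀ j, L x j ≤ x none := by
    intro j
    show x none * wgt p ε (bb x) j / ε ≤ x none
    rw [div_le_iff₀ hε]
    exact mul_le_mul_of_nonneg_left (wgt_le p hε.le _ _) ht0
  -- zero in the first coordinate
  have hzero0 : H x none = 0 := by
    rcases hz none with h | ⟨h, h'⟩ | ⟨h, h'⟩
    · exact h
    · exfalso
      have ht : x none = 0 := h
      have hYz : ∀ c, Y x c = 0 := by
        intro c
        apply X_eq_zero hN
        intro y _
        apply cov_eq_zero
        rintro ⟨j, hj⟩
        have e1 := Int.fract_nonneg (y - A x j)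
        have e2 := hLle j
        rw [ht] at e2
        linarith
      have : H x none = - lam := by
        show ∑ c, Y x c * g0 c - lam = - lam
        simp [hYz]
      linarith
    · exfalso
      have ht : x none = 1 := h
      obtain ⟨j0, hj0⟩ := exists_mn p (bb x)
      have hYz : ∀ c, Y x c = 1 := by
        intro c
        apply X_eq_one hN
        intro y _
        apply cov_eq_one
        refine ⟨j0, ?_⟩
        have e1 : L x j0 = 1 := by
          show x none * wgt p ε (bb x) j0 / ε = 1
          unfold wgt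
          rw [hj0, ht, sub_self, sub_zero, max_eq_right hε.le, one_mul, div_self hε.ne']
        rw [e1]
        exact Int.fract_lt_one _
      have : H x none = 1 - lam := by
        show ∑ c, Y x c * g0 c - lam = 1 - lam
        simp [hYz, hg0]
      linarith
  -- zeros in the other coordinates
  have hzero : ∀ i, H x (some i) = 0 := by
    by_contra hcon
    push Not at hcon
    obtain ⟨i0, hi0⟩ := hcon
    have hnorm1 : ‖bb x‖ = 1 := by
      apply le_antisymm hbnorm
      have habs : |x (some i0)| = 1 := by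
        rcases hz (some i0) with h | ⟨h, _⟩ | ⟨h, _⟩
        · exact absurd h hi0
        · have h' : x (some i0) = -1 := h
          rw [h']; norm_num
        · have h' : x (some i0) = 1 := h
          rw [h']; norm_num
      have := norm_le_pi_norm (bb x) i0
      rw [Real.norm_eq_abs] at this
      change |x (some i0)| ≤ ‖bb x‖ at this
      rw [habs] at this
      exact this
    have hle : ∑ i, H x (some i) * x (some i) ≤ 0 := by
      apply Finset.sum_nonpos
      intro i _
      rcases hz (some i) with h | ⟨h, h'⟩ | ⟨h, h'⟩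
      · rw [h]; simp
      · have h'' : x (some i) = -1 := h
        rw [h'']; linarith
      · have h'' : x (some i) = 1 := h
        rw [h'']; linarith
    -- the boundary inequality
    have hAx : A x = fun j : Fin N => ((j:ℕ):ℝ) / N := by
      ext j
      show max 0 (2 * ‖bb x‖ - 1) * (((j:ℕ):ℝ) / N) = ((j:ℕ):ℝ) / N
      rw [hnorm1]
      norm_num
    have hab := abel (N := N) (L x) (fun j => hgt p (bb x) j - mn p (bb x)) ε
      (fun j => sub_nonneg.mpr (mn_le p (bb x) j)) (by
        intro j hj
        by_contra hcon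
        push Not at hcon
        have : wgt p ε (bb x) j = 0 := by
          unfold wgt
          apply max_eq_left
          linarith
        have e : L x j = 0 := by
          show x none * wgt p ε (bb x) j / ε = 0
          rw [this]; simp
        linarith) hε.le
    rw [← hAx] at hab
    have hsum : ∑ i, H x (some i) * x (some i) =
        ∑ c, Y x c * ((hgt p (bb x) (c + 1) - mn p (bb x)) - (hgt p (bb x) c - mn p (bb x))) +
        (N + 1) * ε * ∑ i, x (some i) ^ 2 := by
      have e1 : ∀ i, H x (some i) * x (some i) = ∑ c, Y x c * ((p (c + 1) i - p c i) * x (some i)) +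
          (N + 1) * ε * x (some i) ^ 2 := by
        intro i
        show (∑ c, Y x c * (p (c + 1) i - p c i) + (N + 1) * ε * x (some i)) * x (some i) = _
        rw [add_mul, Finset.sum_mul]
        congr 1
        · apply Finset.sum_congr rfl
          intro c _
          ring
        · ring
      rw [Finset.sum_congr rfl (fun i _ => e1 i), Finset.sum_add_distrib, Finset.sum_comm,
        ← Finset.mul_sum]
      congr 1
      apply Finset.sum_congr rfl
      intro c _
      rw [← Finset.mul_sum]
      congr 1
      unfold hgt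
      rw [sub_sub_sub_cancel_right, ← Finset.sum_sub_distrib]
      apply Finset.sum_congr rfl
      intro i _
      show (p (c + 1) i - p c i) * x (some i) = p (c + 1) i * x (some i) - p c i * x (some i)
      ring
    have hsq : 1 ≤ ∑ i, x (some i) ^ 2 := by
      have habs : x (some i0) ^ 2 = 1 := by
        rcases hz (some i0) with h | ⟨h, _⟩ | ⟨h, _⟩
        · exact absurd h hi0
        · have h' : x (some i0) = -1 := h
          rw [h']; norm_num
        · have h' : x (some i0) = 1 := h
          rw [h']; norm_num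
      rw [← habs]
      exact Finset.single_le_sum (f := fun i => x (some i) ^ 2) (fun i _ => sq_nonneg _)
        (Finset.mem_univ i0)
    have hpos : 0 < (N + 1 : ℝ) * ε := by positivity
    have : (N + 1 : ℝ) * ε ≤ (N + 1) * ε * ∑ i, x (some i) ^ 2 := by
      nlinarith
    have hfin : 0 < ∑ i, H x (some i) * x (some i) := by
      rw [hsum]
      have : -(N * ε) ≤ ∑ c, Y x c * ((hgt p (bb x) (c + 1) - mn p (bb x)) -
        (hgt p (bb x) c - mn p (bb x))) := hab
      nlinarith
    linarith
  -- conclusion for the arcs indexed by Fin N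
  have hfin0 : ∑ c, Y x c * g0 c = lam := by
    have : ∑ c, Y x c * g0 c - lam = 0 := hzero0
    linarith
  have hfin1 : ∀ i, |∑ c, Y x c * (p (c + 1) i - p c i)| ≤ (N + 1) * ε := by
    intro i
    have h : ∑ c, Y x c * (p (c + 1) i - p c i) + (N + 1) * ε * x (some i) = 0 := hzero i
    have h' : ∑ c, Y x c * (p (c + 1) i - p c i) = -((N + 1) * ε * x (some i)) := by linarith
    have hpos : 0 < (N + 1 : ℝ) * ε := by positivity
    rw [h', abs_neg, abs_mul, abs_of_pos hpos]
    have : |x (some i)| ≤ 1 := abs_le.mpr ⟨hb0 i, hb1 i⟩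
    nlinarith
  -- reduction of the number of arcs
  suffices hred : ∃ a l : ι → ℝ, (∀ i, a i ∈ Icc (0:ℝ) 1) ∧ (∀ i, l i ∈ Icc (0:ℝ) 1) ∧
      ∀ y, cov (A x) (L x) y = cov a l y by
    obtain ⟨a, l, ha, hl, hcov⟩ := hred
    have hX : ∀ c : Fin N, X N a l ((c:ℕ):ℤ) = Y x c :=
      fun c => (X_congr (A x) (L x) a l hcov _).symm
    refine ⟨a, l, ha, hl, ?_, ?_⟩
    · rw [Finset.sum_congr rfl (fun c _ => by rw [hX c])]
      exact hfin0
    · intro i
      rw [Finset.sum_congr rfl (fun c _ => by rw [hX c])]
      exact hfin1 i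
  rcases lt_or_ge ‖bb x‖ (1 / 2) with hsmall | hbig
  · -- all arcs start at the base point
    refine ⟨fun _ => 0, fun _ => x none, fun _ => ⟨le_rfl, zero_le_one⟩, fun _ => ⟨ht0, ht1⟩, ?_⟩
    intro y
    have hA0 : ∀ j, A x j = 0 := by
      intro j
      show max 0 (2 * ‖bb x‖ - 1) * (((j:ℕ):ℝ) / N) = 0
      rw [max_eq_left (by linarith), zero_mul]
    by_cases h : ∃ j, Int.fract (y - A x j) < L x j
    · rw [cov_eq_one h, cov_eq_one]
      obtain ⟨j, hj⟩ := h
      obtain ⟨i⟩ := (inferInstance : Nonempty ι)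
      refine ⟨i, ?_⟩
      rw [hA0] at hj
      exact lt_of_lt_of_le hj (hLle j)
    · rw [cov_eq_zero h, cov_eq_zero]
      rintro ⟨i, hi⟩
      apply h
      obtain ⟨j0, hj0⟩ := exists_mn p (bb x)
      refine ⟨j0, ?_⟩
      have e1 : L x j0 = x none := by
        show x none * wgt p ε (bb x) j0 / ε = x none
        unfold wgt
        rw [hj0, sub_self, sub_zero, max_eq_right hε.le]
        field_simp
      rw [hA0, e1]
      exact hi
  · -- few active arcs
    set act : Finset (Fin N) := Finset.univ.filter (fun j : Fin N => 0 < L x j) with hactdef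
    have hcard : act.card ≤ Fintype.card ι := by
      refine le_trans (Finset.card_le_card ?_) (hact (bb x) hbig hbnorm)
      intro j hj
      rw [hactdef, Finset.mem_filter] at hj
      rw [Finset.mem_filter]
      refine ⟨Finset.mem_univ _, ?_⟩
      intro j'
      by_contra hcon
      push Not at hcon
      have h2 : wgt p ε (bb x) j = 0 := by
        unfold wgt
        apply max_eq_left
        obtain ⟨j0, hj0⟩ := exists_mn p (bb x)
        have := mn_le p (bb x) j'
        linarith
      have h3 : L x j = 0 := by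
        show x none * wgt p ε (bb x) j / ε = 0
        rw [h2]; simp
      linarith [hj.2]
    have hcard' : Fintype.card act ≤ Fintype.card ι := by
      rw [Fintype.card_coe]; exact hcard
    obtain ⟨e⟩ := Function.Embedding.nonempty_of_card_le hcard'
    let a' : ι → ℝ := fun i => if h : ∃ j : act, e j = i then A x h.choose.1 else 0
    let l' : ι → ℝ := fun i => if h : ∃ j : act, e j = i then L x h.choose.1 else 0
    have hA01 : ∀ j, A x j ∈ Icc (0:ℝ) 1 := by
      intro j
      have e1 : 0 ≤ max 0 (2 * ‖bb x‖ - 1) := le_max_left _ _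
      have e2 : max 0 (2 * ‖bb x‖ - 1) ≤ 1 := max_le zero_le_one (by linarith)
      have e3 : 0 ≤ ((j:ℕ):ℝ) / N := by positivity
      have e4 : ((j:ℕ):ℝ) / N ≤ 1 := by
        rw [div_le_one hN']
        exact_mod_cast j.2.le
      exact ⟨mul_nonneg e1 e3, mul_le_one₀ e2 e3 e4⟩
    have hval : ∀ j : act, a' (e j) = A x j.1 ∧ l' (e j) = L x j.1 := by
      intro j
      have h : ∃ j' : act, e j' = e j := ⟨j, rfl⟩
      have hc : h.choose = j := e.injective h.choose_spec
      constructor
      · show (if h : ∃ j' : act, e j' = e j then A x h.choose.1 else 0) = _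
        rw [dif_pos h, hc]
      · show (if h : ∃ j' : act, e j' = e j then L x h.choose.1 else 0) = _
        rw [dif_pos h, hc]
    refine ⟨a', l', ?_, ?_, ?_⟩
    · intro i
      by_cases h : ∃ j : act, e j = i
      · obtain ⟨j, rfl⟩ := h
        rw [(hval j).1]
        exact hA01 _
      · show (if h : ∃ j : act, e j = i then A x h.choose.1 else 0) ∈ _
        rw [dif_neg h]
        exact ⟨le_rfl, zero_le_one⟩
    · intro i
      by_cases h : ∃ j : act, e j = i
      · obtain ⟨j, rfl⟩ := h
        rw [(hval j).2]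
        exact ⟨hLnn _, (hLle _).trans ht1⟩
      · show (if h : ∃ j : act, e j = i then L x h.choose.1 else 0) ∈ _
        rw [dif_neg h]
        exact ⟨le_rfl, zero_le_one⟩
    · intro y
      by_cases h : ∃ j, Int.fract (y - A x j) < L x j
      · rw [cov_eq_one h, cov_eq_one]
        obtain ⟨j, hj⟩ := h
        have hjact : j ∈ act := by
          rw [hactdef, Finset.mem_filter]
          exact ⟨Finset.mem_univ _, lt_of_le_of_lt (Int.fract_nonneg _) hj⟩
        refine ⟨e ⟨j, hjact⟩, ?_⟩
        rw [(hval ⟨j, hjact⟩).1, (hval ⟨j, hjact⟩).2]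
        exact hj
      · rw [cov_eq_zero h, cov_eq_zero]
        rintro ⟨i, hi⟩
        by_cases h' : ∃ j : act, e j = i
        · obtain ⟨j, rfl⟩ := h'
          rw [(hval j).1, (hval j).2] at hi
          exact h ⟨j.1, hi⟩
        · have e1 : l' i = 0 := by
            show (if h : ∃ j : act, e j = i then L x h.choose.1 else 0) = 0
            rw [dif_neg h']
          rw [e1] at hi
          have := Int.fract_nonneg (y - a' i)
          linarith

end MP_476501_co
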